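import Pool.Agent.Helper46.PM.Nam
import Pool.Agent.Helper83.NSA.St
import Pool.Agent.Helper91.GR.Ltp

/-! Permutation of coordinates: properties of all selected systems, rich velocities, robust slabs. -/

set_option autoImplicit false

namespace Pool.Agent.Helper46.PM

open Finset Filter Topology Matrix Pool.Agent.Helper69.RK Pool.Agent.Helper31.EC Pool.Agent.Helper31.EC.Sp
open Pool.Agent.Helper40.EL Pool.Agent.Helper42.NS Pool.Agent.Helper52.KP Pool.Agent.Helper52.SL
open Pool.Agent.Helper89.LX Pool.Agent.Helper3.SG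
open Pool.Agent.Helper91.GR Pool.Agent.Helper19.S12 Pool.Agent.Helper40.NSK Pool.Agent.Helper83.NSA
open Pool.Agent.Helper46.LI

noncomputable section

variable {S : Sp} {m : ℕ}

/-- **WLOG for `Ex4`**: a property of all selected systems holds for all their permutations -/
theorem Ex4_pm {D : ℕ} {P : ∀ (_ : ℝ) (S : Sp), Sys S 3 → Prop} (h : Ex4 D P) :
    Ex4 D (fun g S s => ∀ e : Equiv.Perm (Fin 3), P g S (s.pm e)) := by
  obtain ⟨G', Φ', M, hM, h⟩ := h
  obtain ⟨G, Φ, h1, h2⟩ := exists_lists4 G' Φ' hM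
  exact ⟨G, Φ, M, h1, fun g S s hs e => h g S (s.pm e) (h2 hs e)⟩

theorem RYl_pm (s : Sys S m) (e : Equiv.Perm (Fin m)) (y : Fin m) : RYl (s.pm e) y ↔ RYl s (e y) := by
  unfold RYl
  simp only [pm_cor_h]

theorem LipAt_pm (s : Sys S 3) (e : Equiv.Perm (Fin 3)) (D : ℕ) : LipAt (s.pm e) D ↔ LipAt s D := by
  unfold LipAt
  rw [c0_pm]
  simp only [eta_pm]

theorem Jz_pm {q : ℕ} (e : Equiv.Perm (Fin (q + 1))) (z : Fin (q + 1)) (j : Fin q) :
    (Jz z j).image (ex e) = Jz (e z) (ind e z j) := by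
  unfold Jz
  rw [Finset.image_insert, Finset.image_image, ex_zero]
  congr 1
  ext i
  simp only [Finset.mem_image, Finset.mem_erase, Finset.mem_univ, and_true, Function.comp_apply, ex_succ]
  constructor
  · rintro ⟨l, hl, rfl⟩
    exact ⟨ind e z l, fun h => hl ((ind e z).injective h), by rw [ind_spec]⟩
  · rintro ⟨l, hl, rfl⟩
    refine ⟨(ind e z).symm l, fun h => hl ?_, ?_⟩
    · rw [← h, Equiv.apply_symm_apply]
    · rw [← ind_spec, Equiv.apply_symm_apply]

theorem psi_SJz {q : ℕ} (s : Sys S (q + 1)) (e : Equiv.Perm (Fin (q + 1))) (z : Fin (q + 1)) (j : Fin q) (c σ : ℝ) :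
    psi (SJ (z.succAbove j) (Jz z j)) (s.pm e) c σ =
      psi (SJ ((e z).succAbove (ind e z j)) (Jz (e z) (ind e z j))) s c σ := by
  rw [psi_SJ, Jz_pm, ind_spec]

theorem RobSl_pm (s : Sys S 3) (e : Equiv.Perm (Fin 3)) (z : Fin 3) : RobSl (s.pm e) z ↔ RobSl s (e z) := by
  unfold RobSl
  constructor
  · intro h j T p E hE c σ
    have h1 := h ((ind e z).symm j) T p E hE c σ
    rw [← Jz_two, pm_im, psi_SJz, psi_SJz, Equiv.apply_symm_apply] at h1
    rw [← Jz_two]
    exact h1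
  · intro h j T p E hE c σ
    have h1 := h (ind e z j) T p E hE c σ
    rw [← Jz_two] at h1
    rw [← Jz_two, pm_im, psi_SJz, psi_SJz]
    exact h1

end

end Pool.Agent.Helper46.PM
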