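import Pool.Agent.Helper46.PM.Exf
import Pool.Agent.Helper3.H3.Ry
import Pool.Agent.Helper31.NSB.Lev

/-! The lists of functionals of case B: `Rbb g (s.pm e)` for all selected systems and all permutations. -/

set_option autoImplicit false

namespace Pool.Agent.Helper46.PM

open Finset Filter Topology Matrix Pool.Agent.Helper69.RK Pool.Agent.Helper31.EC Pool.Agent.Helper31.EC.Sp
open Pool.Agent.Helper40.EL Pool.Agent.Helper42.NS Pool.Agent.Helper52.KP Pool.Agent.Helper52.SL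
open Pool.Agent.Helper89.LX Pool.Agent.Helper3.SG
open Pool.Agent.Helper91.GR Pool.Agent.Helper19.S12 Pool.Agent.Helper40.NSK Pool.Agent.Helper83.NSA
open Pool.Agent.Helper46.LI Pool.Agent.Helper3.H3 Pool.Agent.Helper31.NSB

noncomputable section

variable {S : Sp} {m : ℕ}

/-! ### the velocity of a coordinate given the point, as a functional -/

theorem ryc_nonneg (s : Sys S m) (y : Fin m) (r : ℝ) : 0 ≤ ryc s y r := h_nonneg _ _

theorem ryc_mono (s : Sys S m) (y : Fin m) {r r' : ℝ} (h : r ≤ r') : ryc s y r ≤ ryc s y r' :=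
  h_mono ((TR.vec fun _ : Fin 1 => TR.cor s.x y).dg_mono h)

theorem ryc_lip (s : Sys S m) (y : Fin m) {r r' : ℝ} (hr : r ≤ r') : ryc s y r' ≤ ryc s y r + (r' - r) := by
  have h1 := h_triangle (TR.dg (TR.cor s.x y) r') (TR.dg (TR.cor s.x y) r) (lB s)
  have h2 : h (TR.dg (TR.cor s.x y) r') (TR.dg (TR.cor s.x y) r ⊔ lB s) ≤
    h (TR.dg (TR.cor s.x y) r') (TR.dg (TR.cor s.x y) r) := h_anti le_sup_left
  have h3 := (TR.vec fun _ : Fin 1 => TR.cor s.x y).h_dg_dg hr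
  have h4 : h (TR.dg (TR.cor s.x y) r') (TR.dg (TR.cor s.x y) r) ≤ ((1 : ℕ) : ℝ) * (r' - r) := h3
  rw [Nat.cast_one, one_mul] at h4
  unfold ryc
  linarith

theorem ryc_le (s : Sys S m) (y : Fin m) {r : ℝ} (h0 : 0 ≤ r) : ryc s y r ≤ r := by
  have h1 := (TR.vec fun _ : Fin 1 => TR.cor s.x y).H_dg_le h0
  rw [Nat.cast_one, one_mul] at h1
  exact (h_le_H _ _).trans h1

theorem ryc_UB (s : Sys S m) (y : Fin m) (r : ℝ) :
    UB (fun k => (s.fin k).q (kxc (s.fin k) y r) ((s.fin k).kP 1 ⊓ (s.fin k).kt 1)) :=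
  UB_rt (((TR.vec fun _ : Fin 1 => TR.cor s.x y).bdd r).toInf) (Inf.sup (s.IP 1) (s.It 1)).1

theorem ryc_pull (s : Sys S m) (y : Fin m) (r : ℝ) {T : Sp} (p : Pj T S) : ryc (s.pull p) y r = ryc s y r := by
  unfold ryc lB
  rw [Sys.pull_P]
  show h ((p.vv (TR.vec fun _ : Fin 1 => TR.cor s.x y)).dg r) ((p.vv s.P).dg 1 ⊔ (p.vv s.t).dg 1) = _
  rw [← p.map_dg, ← p.map_dg, ← p.map_dg, ← p.map_sup, p.h_map]
  rfl

/-- the functional `h(y_r(x) | P, t)` -/
def ryF (y : Fin m) (r : ℝ) : Fnl m where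
  f := fun _ s => ryc s y r
  nn := fun _ s => ryc_nonneg s y r
  usc := by
    intro S s _
    obtain ⟨E, hE, h1⟩ := diag_val (fun X : FSy m => X.q (kxc X y r) (X.kP 1 ⊓ X.kt 1)) (fun S s => ryc_UB s y r) S s
    refine ⟨E, hE, fun T v J hd => ?_⟩
    have h2 := h1 T v J hd
    simp only [← ryc_eq] at h2
    exact h2.ge
  spl := fun S s T p E hE hE' => by
    rw [← ry_im s y r p E hE, ← ry_im s y r p _ hE', ← h_split E hE hE', p.h_map]
    exact le_rfl
  typ := fun S s T p E hE ht => by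
    rw [← ry_im s y r p E hE]
    have h1 := h_restL_typ E ht (p.map (TR.dg (TR.cor s.x y) r)) (p.map (lB s))
    rw [p.h_map] at h1
    exact h1.ge
  pull := fun _ s _ p => ryc_pull s y r p

/-- comparison at rational levels is enough -/
theorem ryc_le_of_rat {S' : Sp} {s : Sys S m} {s' : Sys S' m} {y : Fin m}
    (h : ∀ q : ℚ, (0 : ℝ) ≤ q → (q : ℝ) ≤ 1 → ryc s y q ≤ ryc s' y q) {r : ℝ} (h0 : 0 ≤ r) (h1 : r ≤ 1) :
    ryc s y r ≤ ryc s' y r := by
  rcases h1.eq_or_lt with rfl | h1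
  · have := h 1 (by norm_num) (by norm_num)
    rwa [Rat.cast_one] at this
  · apply le_of_forall_pos_le_add
    intro e he
    obtain ⟨q, h2, h3⟩ := exists_rat_btwn (show r < min 1 (r + e) from lt_min h1 (by linarith))
    have h4 : (q : ℝ) ≤ 1 := h3.le.trans (min_le_left _ _)
    have h5 : (q : ℝ) ≤ r + e := h3.le.trans (min_le_right _ _)
    have h6 := h q (h0.trans h2.le) h4
    have h7 := ryc_mono s y h2.le
    have h8 := ryc_lip s' y h2.le
    linarith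

/-! ### the lists -/

/-- clipped rational numbers -/
def clq (q : ℚ) : ℝ := max 0 (min 1 (q : ℝ))

theorem clq_nonneg (q : ℚ) : 0 ≤ clq q := le_max_left _ _

theorem clq_le (q : ℚ) : clq q ≤ 1 := max_le zero_le_one (min_le_left _ _)

theorem clq_eq {q : ℚ} (h0 : (0 : ℝ) ≤ q) (h1 : (q : ℝ) ≤ 1) : clq q = q := by
  unfold clq
  rw [min_eq_right h1, max_eq_right h0]

/-- the gauges of case B -/
def gB : (Fin 3 × Finset (Fin 4)) ⊕ (ℕ ⊕ (ℕ × Fin 3)) → Gg 3
  | .inl a => SJ a.1 a.2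
  | .inr (.inl D) => GD 3 D
  | .inr (.inr a) => GDe 3 a.1 (Pi.single a.2 1)

/-- the volumes of the projections -/
def vB (i : Fin 3) : Vp 3 := Vp.vol (selM i) 1

/-- the functionals of case B -/
def fB : ℕ ⊕ (Fin 3 × ℚ) → Fnl 3
  | .inl n => valN vB n
  | .inr a => ryF a.1 (clq a.2)

theorem fB_le (a : ℕ ⊕ (Fin 3 × ℚ)) (S : Sp) (s : Sys S 3) : (fB a).f S s ≤ 1 := by
  rcases a with n | a
  · exact valN_le vB n S s
  · exact (ryc_le s a.1 (clq_nonneg a.2)).trans (clq_le a.2)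

/-- a list with all values of a function on a countable type -/
theorem exists_enum {α : Type} {β : Type*} [Encodable α] [Inhabited α] (f : α → β) :
    ∃ g : ℕ → β, (∀ k, ∃ a, g k = f a) ∧ ∀ a, ∃ k, g k = f a :=
  ⟨fun k => f ((Encodable.decode k : Option α).getD default), fun k => ⟨_, rfl⟩,
    fun a => ⟨Encodable.encode a, by simp⟩⟩

theorem exists_rbb0 : ∃ (G : ℕ → Gg 3) (Φ : ℕ → Fnl 3) (M : ℝ), (∀ q S s, (Φ q).f S s ≤ M) ∧
    ∀ (D : ℕ) (g : ℝ) (S : Sp) (s : Sys S 3), Sel4 G Φ D g s → Rbb g s := by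
  have _ : Inhabited ((Fin 3 × Finset (Fin 4)) ⊕ (ℕ ⊕ (ℕ × Fin 3))) := ⟨.inr (.inl 0)⟩
  have _ : Inhabited (ℕ ⊕ (Fin 3 × ℚ)) := ⟨.inl 0⟩
  obtain ⟨G, hG1, hG2⟩ := exists_enum gB
  obtain ⟨Φ, hF1, hF2⟩ := exists_enum fB
  refine ⟨G, Φ, 1, fun q S s => ?_, fun D g S s hs => ?_⟩
  · obtain ⟨a, ha⟩ := hF1 q
    rw [ha]
    exact fB_le a S s
  · have hg : ∀ a, RobustG (fun _ : Unit => gB a) s := by
      intro a _
      obtain ⟨k, hk⟩ := hG2 a
      have h1 := hs.rob.g k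
      rw [hk] at h1
      exact h1
    have hf : ∀ a, RobF (fB a) s := by
      intro a
      obtain ⟨k, hk⟩ := hF2 a
      rw [← hk]
      exact hs.rob.f k
    have hv : Pool.Agent.Helper52.SL.RobV vB s := robV_of_nat fun n => hf (.inl n)
    exact
      { g0 := hs.g0
        rich := hs.rich
        P := hs.rob.p
        I := hs.rob.i
        sj := fun i J => hg (.inl (i, J))
        gd := fun D => hg (.inr (.inl D))
        gde := fun D i => hg (.inr (.inr (D, i)))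
        gdp := hs.robL
        vol := fun i c _ _ T p E hE => (lvolP_rob' (hv i c) p E hE).le
        rx := by
          intro i T p E hE r h0 h1
          rw [ry_im]
          have h2 : ∀ q : ℚ, (0 : ℝ) ≤ q → (q : ℝ) ≤ 1 → ryc (s.im p E hE) i q = ryc s i q := by
            intro q a b
            have h3 := hf (.inr (i, q)) T p E hE
            have h4 : ryc (s.im p E hE) i (clq q) = ryc s i (clq q) := h3
            rwa [clq_eq a b] at h4
          exact le_antisymm (ryc_le_of_rat (fun q a b => (h2 q a b).le) h0 h1)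
            (ryc_le_of_rat (fun q a b => (h2 q a b).ge) h0 h1) }

/-- **B_LISTS**: lists of functionals such that all permutations of the selected systems are robust for case B -/
theorem exists_rbb : ∃ (G : ℕ → Gg 3) (Φ : ℕ → Fnl 3) (M : ℝ), (∀ q S s, (Φ q).f S s ≤ M) ∧
    ∀ (D : ℕ) (g : ℝ) (S : Sp) (s : Sys S 3), Sel4 G Φ D g s → ∀ e : Equiv.Perm (Fin 3), Rbb g (s.pm e) := by
  obtain ⟨G', Φ', M, hM, h⟩ := exists_rbb0
  obtain ⟨G, Φ, h1, h2⟩ := exists_lists4 G' Φ' hM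
  exact ⟨G, Φ, M, h1, fun D g S s hs e => h D g S (s.pm e) (h2 hs e)⟩

/-- the same in the form `Ex4` -/
theorem ex4_rbb (D : ℕ) : Ex4 D (fun g _ s => ∀ e : Equiv.Perm (Fin 3), Rbb g (s.pm e)) := by
  obtain ⟨G, Φ, M, h1, h2⟩ := exists_rbb
  exact ⟨G, Φ, M, h1, fun g S s hs => h2 D g S s hs⟩

/-- events of extensions -/
theorem rbb_im {G : ℕ → Gg 3} {Φ : ℕ → Fnl 3}
    (h : ∀ (D : ℕ) (g : ℝ) (S : Sp) (s : Sys S 3), Sel4 G Φ D g s → ∀ e : Equiv.Perm (Fin 3), Rbb g (s.pm e))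
    {D : ℕ} {g : ℝ} {s : Sys S 3} (hs : Sel4 G Φ D g s) (e : Equiv.Perm (Fin 3)) {T : Sp} (p : Pj T S)
    (E : ∀ k, (T.F k).Ω → Prop) (hE : 0 < ul (T.pr E)) : Rbb g ((s.pm e).im p E hE) :=
  h D g _ _ (hs.im p E hE) e

end

end Pool.Agent.Helper46.PM
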