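import Pool.Agent.Helper46.PM.Prj

/-! Permutation of coordinates: the sheets of the box roles `y = P 0`, `R = P 1`, `z = P 2` of the permuted system. -/

set_option autoImplicit false

namespace Pool.Agent.Helper46.PM

open Finset Filter Topology Matrix Pool.Agent.Helper69.RK Pool.Agent.Helper31.EC Pool.Agent.Helper31.EC.Sp
open Pool.Agent.Helper40.EL Pool.Agent.Helper42.NS Pool.Agent.Helper52.KP Pool.Agent.Helper52.SL
open Pool.Agent.Helper89.LX Pool.Agent.Helper3.SG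
open Pool.Agent.Helper91.GR Pool.Agent.Helper19.S12 Pool.Agent.Helper40.NSK

noncomputable section

variable {S : Sp} {m : ℕ}

theorem img_one (e : Equiv.Perm (Fin m)) (i : Fin m) :
    ({0, i.succ} : Finset (Fin (m + 1))).image (ex e) = {0, (e i).succ} := by
  rw [Finset.image_insert, Finset.image_singleton]
  rfl

theorem img_two (e : Equiv.Perm (Fin m)) (i j : Fin m) :
    ({0, i.succ, j.succ} : Finset (Fin (m + 1))).image (ex e) = {0, (e i).succ, (e j).succ} := by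
  rw [Finset.image_insert, Finset.image_insert, Finset.image_singleton]
  rfl

theorem img_01 (e : Equiv.Perm (Fin 3)) : ({0, 1} : Finset (Fin 4)).image (ex e) = {0, (e 0).succ} := img_one e 0
theorem img_02 (e : Equiv.Perm (Fin 3)) : ({0, 2} : Finset (Fin 4)).image (ex e) = {0, (e 1).succ} := img_one e 1
theorem img_03 (e : Equiv.Perm (Fin 3)) : ({0, 3} : Finset (Fin 4)).image (ex e) = {0, (e 2).succ} := img_one e 2
theorem img_012 (e : Equiv.Perm (Fin 3)) : ({0, 1, 2} : Finset (Fin 4)).image (ex e) = {0, (e 0).succ, (e 1).succ} :=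
  img_two e 0 1
theorem img_013 (e : Equiv.Perm (Fin 3)) : ({0, 1, 3} : Finset (Fin 4)).image (ex e) = {0, (e 0).succ, (e 2).succ} :=
  img_two e 0 2
theorem img_023 (e : Equiv.Perm (Fin 3)) : ({0, 2, 3} : Finset (Fin 4)).image (ex e) = {0, (e 1).succ, (e 2).succ} :=
  img_two e 1 2

/-- the names `y`, `R`, `z` of the coordinates `0`, `1`, `2` of the permuted system -/
structure Nms (e : Equiv.Perm (Fin 3)) (y R z : Fin 3) : Prop where
  y : e 0 = y
  R : e 1 = R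
  z : e 2 = z

theorem exists_nms {y R z : Fin 3} (h1 : y ≠ R) (h2 : y ≠ z) (h3 : R ≠ z) : ∃ e : Equiv.Perm (Fin 3), Nms e y R z := by
  obtain ⟨e, a, b, c⟩ := exists_perm3 h1 h2 h3
  exact ⟨e, a, b, c⟩

section
variable {e : Equiv.Perm (Fin 3)} {y R z : Fin 3} {s : Sys S 3} {c σ : ℝ}

theorem Nms.psi_z (h : Nms e y R z) : psi (SJ 2 {0, 1, 2}) (s.pm e) c σ = psi (SJ z {0, y.succ, R.succ}) s c σ := by
  rw [psi_SJ, img_012, h.y, h.R, h.z]

theorem Nms.psi_R (h : Nms e y R z) : psi (SJ 1 {0, 1}) (s.pm e) c σ = psi (SJ R {0, y.succ}) s c σ := by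
  rw [psi_SJ, img_01, h.y, h.R]

theorem Nms.psi_zy (h : Nms e y R z) : psi (SJ 2 {0, 1}) (s.pm e) c σ = psi (SJ z {0, y.succ}) s c σ := by
  rw [psi_SJ, img_01, h.y, h.z]

theorem Nms.psi_y (h : Nms e y R z) : psi (SJ 0 {0, 2}) (s.pm e) c σ = psi (SJ y {0, R.succ}) s c σ := by
  rw [psi_SJ, img_02, h.y, h.R]

theorem Nms.psi_Rz (h : Nms e y R z) : psi (SJ 1 {0, 1, 3}) (s.pm e) c σ = psi (SJ R {0, y.succ, z.succ}) s c σ := by
  rw [psi_SJ, img_013, h.y, h.R, h.z]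

theorem Nms.HH_z (h : Nms e y R z) : HH (SJ 2 {0, 1, 2}) (s.pm e) c σ ↔ HH (SJ z {0, y.succ, R.succ}) s c σ := by
  rw [HH_iff, HH_iff, h.psi_z]

theorem Nms.HH_R (h : Nms e y R z) : HH (SJ 1 {0, 1}) (s.pm e) c σ ↔ HH (SJ R {0, y.succ}) s c σ := by
  rw [HH_iff, HH_iff, h.psi_R]

theorem Nms.HH_y (h : Nms e y R z) : HH (SJ 0 {0, 2}) (s.pm e) c σ ↔ HH (SJ y {0, R.succ}) s c σ := by
  rw [HH_iff, HH_iff, h.psi_y]

theorem Nms.HH_zy (h : Nms e y R z) : HH (SJ 2 {0, 1}) (s.pm e) c σ ↔ HH (SJ z {0, y.succ}) s c σ := by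
  rw [HH_iff, HH_iff, h.psi_zy]

theorem Nms.HH_Rz (h : Nms e y R z) : HH (SJ 1 {0, 1, 3}) (s.pm e) c σ ↔ HH (SJ R {0, y.succ, z.succ}) s c σ := by
  rw [HH_iff, HH_iff, h.psi_Rz]

theorem Nms.la_z (h : Nms e y R z) : la (s.pm e) 2 {0, 1, 2} c = la s z {0, y.succ, R.succ} c := by
  rw [la_pm, img_012, h.y, h.R, h.z]

theorem Nms.la_R (h : Nms e y R z) : la (s.pm e) 1 {0, 1} c = la s R {0, y.succ} c := by
  rw [la_pm, img_01, h.y, h.R]

theorem Nms.la_y (h : Nms e y R z) : la (s.pm e) 0 {0, 2} c = la s y {0, R.succ} c := by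
  rw [la_pm, img_02, h.y, h.R]

theorem Nms.la_zy (h : Nms e y R z) : la (s.pm e) 2 {0, 1} c = la s z {0, y.succ} c := by
  rw [la_pm, img_01, h.y, h.z]

theorem Nms.la_Rz (h : Nms e y R z) : la (s.pm e) 1 {0, 1, 3} c = la s R {0, y.succ, z.succ} c := by
  rw [la_pm, img_013, h.y, h.R, h.z]

theorem Nms.lamI_z (h : Nms e y R z) : lamI (s.pm e) 2 c = lamI s z c := by
  rw [lamI_pm, h.z]

theorem Nms.HfE_z (h : Nms e y R z) {D : ℕ} : HfE (s.pm e) D (Pi.single 2 1) c σ ↔ HfE s D (Pi.single z 1) c σ := by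
  rw [HfE_pm, h.z]

theorem Nms.lvol_z (h : Nms e y R z) {D : ℕ} :
    Helper3.SG.lvolP (s.pm e) (prI (s.pm e) 2) D c = Helper3.SG.lvolP s (prI s z) D c := by
  rw [lvolP_prI, h.z]

end

/-- velocities given the point, on events of extensions -/
theorem pm_cor_h (s : Sys S m) (e : Equiv.Perm (Fin m)) (i : Fin m) {T : Sp} (p : Pj T S)
    (E : ∀ k, (T.F k).Ω → Prop) (hE : 0 < ul (T.pr E)) (r : ℝ) :
    h (restL E hE (p.map (TR.dg (TR.cor (s.pm e).x i) r))) (restL E hE (p.map (lB (s.pm e)))) =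
      h (restL E hE (p.map (TR.dg (TR.cor s.x (e i)) r))) (restL E hE (p.map (lB s))) := by
  rw [pm_cor_x, pm_lB]

end

end Pool.Agent.Helper46.PM
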