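import Pool.Agent.Helper95.PM.Stmts
import Pool.Agent.Helper89.PW.ATT

/-! # Row ATTM (MP_56acfd_mp): after Helper89/PW/ATT.lean, with centre `a` -/

set_option autoImplicit false

namespace Pool.Agent.Helper95.PW

open MeasureTheory Filter

theorem attm_ball (a : R3) (ρ : ℝ) (y : R3) : ballc a ρ y = ball ρ (y - a) := rfl

/-- the pointwise bound -/
theorem attm_pt (a : R3) (R r0 : ℝ) (hR : 0 < R) (hr : 0 < r0) (J : ℕ) (hJ : R / 2 ^ J ≤ r0)
    (y : R3) :
    1 / nr (y - a) ≤ 1 / R + r0 * (1 / nr (y - a) ^ 2) +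
      ∑ j ∈ Finset.range J, 2 / (R / 2 ^ j) * ballc a (R / 2 ^ j) y :=
  att_pt R r0 hR hr J hJ (y - a)

theorem attm_kin {n : ℕ} (hH : ST_HA3) (a : R3) (u : Wf n) (hu : Sm u) :
    ∑ s, ∑ k, ∫ x, u s x ^ 2 / nr (x k - a) ^ 2 ≤ 4 * kin u := by
  have h1 : ∀ s k, ∫ x, u s x ^ 2 / nr (x k - a) ^ 2 ≤ 4 * ∑ i, ∫ x, dv k i (u s) x ^ 2 := by
    intro s k
    refine ((hH n k a (u s) (hu s).1 (hu s).2).2).trans (le_of_eq ?_)
    rw [integral_finsetSum]
    intro i _
    apply att_sqint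
    · exact ((hu s).1.continuous_fderiv (by simp)).clm_apply continuous_const
    · exact (hu s).2.fderiv_apply ℝ _
  have h2 : 4 * kin u = ∑ s, ∑ k, 4 * ∑ i, ∫ x, dv k i (u s) x ^ 2 := by
    unfold kin sq
    rw [Finset.mul_sum, Finset.sum_comm]
    refine Finset.sum_congr rfl fun k _ => ?_
    rw [← Finset.mul_sum, Finset.sum_comm]
  rw [h2]
  exact Finset.sum_le_sum fun s _ => Finset.sum_le_sum fun k _ => h1 s k

/-- the integrated bound -/
theorem attm_int {n : ℕ} (hH : ST_HA3) (a : R3) (u : Wf n) (hu : Sm u) (R r0 : ℝ) (hR : 0 < R)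
    (hr : 0 < r0) (J : ℕ) (hJ : R / 2 ^ J ≤ r0) :
    one (fun y => 1 / nr (y - a)) u ≤ n * sq u / R + r0 * (4 * kin u) +
      ∑ j ∈ Finset.range J, 2 / (R / 2 ^ j) * one (ballc a (R / 2 ^ j)) u := by
  have hI1 : ∀ s, Integrable (fun x => u s x ^ 2) := fun s =>
    att_sqint (hu s).1.continuous (hu s).2
  have hI2 : ∀ s k, Integrable (fun x : Cf n => u s x ^ 2 / nr (x k - a) ^ 2) := fun s k =>
    (hH n k a (u s) (hu s).1 (hu s).2).1
  have hI3 : ∀ s (ρ : ℝ) (k : Fin n), Integrable (fun x : Cf n => ballc a ρ (x k) * u s x ^ 2) := by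
    intro s ρ k
    have h1 : (fun x : Cf n => ballc a ρ (x k) * u s x ^ 2) =
        Set.indicator {x : Cf n | nr (x k - a) ≤ ρ} (fun x => u s x ^ 2) := by
      funext x
      by_cases hx : nr (x k - a) ≤ ρ
      · rw [Set.indicator_of_mem (show x ∈ {x : Cf n | nr (x k - a) ≤ ρ} from hx)]
        unfold ballc
        rw [Set.indicator_of_mem (show x k ∈ {y | nr (y - a) ≤ ρ} from hx), one_mul]
      · rw [Set.indicator_of_notMem (show x ∉ {x : Cf n | nr (x k - a) ≤ ρ} from hx)]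
        unfold ballc
        rw [Set.indicator_of_notMem (show x k ∉ {y | nr (y - a) ≤ ρ} from hx), zero_mul]
    rw [h1]
    refine (hI1 s).indicator ?_
    exact (isClosed_le (att_nr_cont.comp ((continuous_apply k).sub continuous_const)) continuous_const).measurableSet
  have hI4 : ∀ s (ρ : ℝ), Integrable (fun x : Cf n => (∑ k, ballc a ρ (x k)) * u s x ^ 2) := by
    intro s ρ
    simp only [Finset.sum_mul]
    exact integrable_finsetSum _ fun k _ => hI3 s ρ k
  have key : ∀ s, ∫ x, (∑ k, 1 / nr (x k - a)) * u s x ^ 2 ≤ (n / R * (∫ x, u s x ^ 2) +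
      r0 * (∑ k, ∫ x, u s x ^ 2 / nr (x k - a) ^ 2)) +
      (∑ j ∈ Finset.range J, 2 / (R / 2 ^ j) *
        (∫ x, (∑ k, ballc a (R / 2 ^ j) (x k)) * u s x ^ 2)) := by
    intro s
    have hA : Integrable (fun x : Cf n => n / R * u s x ^ 2) := (hI1 s).const_mul _
    have hB : Integrable (fun x : Cf n => r0 * ∑ k, u s x ^ 2 / nr (x k - a) ^ 2) :=
      (integrable_finsetSum _ fun k _ => hI2 s k).const_mul _
    have hC : Integrable (fun x : Cf n => ∑ j ∈ Finset.range J,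
        2 / (R / 2 ^ j) * ((∑ k, ballc a (R / 2 ^ j) (x k)) * u s x ^ 2)) :=
      integrable_finsetSum _ fun j _ => (hI4 s _).const_mul _
    have hAB : Integrable (fun x : Cf n => n / R * u s x ^ 2 +
        r0 * ∑ k, u s x ^ 2 / nr (x k - a) ^ 2) := hA.add hB
    have h1 : ∫ x, (∑ k, 1 / nr (x k - a)) * u s x ^ 2 ≤ ∫ x : Cf n, ((n / R * u s x ^ 2 +
        r0 * ∑ k, u s x ^ 2 / nr (x k - a) ^ 2) + ∑ j ∈ Finset.range J,
        2 / (R / 2 ^ j) * ((∑ k, ballc a (R / 2 ^ j) (x k)) * u s x ^ 2)) := by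
      refine integral_mono_of_nonneg (Filter.Eventually.of_forall fun x => ?_)
        (hAB.add hC) (Filter.Eventually.of_forall fun x => ?_)
      · exact mul_nonneg (Finset.sum_nonneg fun k _ => div_nonneg zero_le_one
          (att_nr_nonneg _)) (sq_nonneg _)
      · have h2 : ∑ k, 1 / nr (x k - a) ≤ ∑ k : Fin n, (1 / R + r0 * (1 / nr (x k - a) ^ 2) +
            ∑ j ∈ Finset.range J, 2 / (R / 2 ^ j) * ballc a (R / 2 ^ j) (x k)) :=
          Finset.sum_le_sum fun k _ => attm_pt a R r0 hR hr J hJ (x k)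
        have h3 := mul_le_mul_of_nonneg_right h2 (sq_nonneg (u s x))
        refine h3.trans (le_of_eq ?_)
        rw [Finset.sum_add_distrib, Finset.sum_add_distrib, Finset.sum_const, Finset.card_univ,
          Fintype.card_fin, nsmul_eq_mul, add_mul, add_mul, ← Finset.mul_sum, Finset.sum_comm]
        congr 1
        · congr 1
          · ring
          · rw [mul_assoc, Finset.sum_mul]
            congr 1
            refine Finset.sum_congr rfl fun k _ => ?_
            ring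
        · rw [Finset.sum_mul]
          refine Finset.sum_congr rfl fun j _ => ?_
          rw [← Finset.mul_sum, mul_assoc]
    refine h1.trans (le_of_eq ?_)
    rw [integral_add hAB hC, integral_add hA hB, integral_const_mul, integral_const_mul,
      integral_finsetSum _ fun k _ => hI2 s k,
      integral_finsetSum _ fun j _ => (hI4 s _).const_mul _]
    congr 1
    exact Finset.sum_congr rfl fun j _ => integral_const_mul _ _
  have h1 := Finset.sum_le_sum fun s (_ : s ∈ (Finset.univ : Finset (Fin n → Fin 2))) => key s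
  rw [Finset.sum_add_distrib, Finset.sum_add_distrib, ← Finset.mul_sum, ← Finset.mul_sum] at h1
  have h2 := attm_kin hH a u hu
  have h3 : (∑ s : Fin n → Fin 2, ∑ j ∈ Finset.range J,
      2 / (R / 2 ^ j) * (∫ x, (∑ k, ballc a (R / 2 ^ j) (x k)) * u s x ^ 2)) =
      ∑ j ∈ Finset.range J, 2 / (R / 2 ^ j) * one (ballc a (R / 2 ^ j)) u := by
    rw [Finset.sum_comm]
    refine Finset.sum_congr rfl fun j _ => ?_
    rw [← Finset.mul_sum]
    rfl
  rw [h3] at h1
  have h4 : one (fun y => 1 / nr (y - a)) u = ∑ s, ∫ x, (∑ k, 1 / nr (x k - a)) * u s x ^ 2 := rfl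
  have h5 : sq u = ∑ s, ∫ x, u s x ^ 2 := rfl
  rw [h4, h5]
  have h6 := mul_le_mul_of_nonneg_left h2 hr.le
  have h7 : (n : ℝ) * (∑ s, ∫ x, u s x ^ 2) / R = n / R * ∑ s, ∫ x, u s x ^ 2 := by ring
  rw [h7]
  linarith

/-- row ATTM -/
theorem st_ATTM (hN : ST_NRM) (hH : ST_HA3) : ST_ATTM := by
  obtain ⟨C, hC, hN⟩ := hN
  set p : ℝ := (2 : ℝ) ^ (1 / 5 : ℝ) with hp
  have hp1 : 1 < p := Real.one_lt_rpow (by norm_num) (by norm_num)
  have hp0 : 0 < p := by linarith
  have hip : p⁻¹ < 1 := inv_lt_one_of_one_lt₀ hp1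
  have hip0 : 0 ≤ p⁻¹ := by positivity
  set K : ℝ := (1 - p⁻¹)⁻¹ with hK
  have hKpos : 0 < K := inv_pos.2 (by linarith)
  refine ⟨6 + 4 * C * K, by positivity, fun n u a hn hS hA hq => ?_⟩
  have hk := att_kin_nonneg u
  have hq0 := att_sq_nonneg u
  have hnr : (1 : ℝ) ≤ n := by exact_mod_cast hn
  have hn0 : (0 : ℝ) < n := by linarith
  rcases hk.eq_or_lt with h0 | h0
  · rw [← h0, Real.sqrt_zero, mul_zero]
    by_contra hcon
    rw [not_le] at hcon
    set q := one (fun y => 1 / nr (y - a)) u with ha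
    have h1 := attm_int hH a u hS ((n * sq u + 1) / q) ((n * sq u + 1) / q) (by positivity)
      (by positivity) 0 (by rw [pow_zero, div_one])
    rw [← h0, Finset.sum_range_zero, mul_zero, mul_zero, add_zero, add_zero, ← ha] at h1
    have h2 : (n : ℝ) * sq u / ((n * sq u + 1) / q) = q * (n * sq u / (n * sq u + 1)) := by
      field_simp
    rw [h2] at h1
    have h3 : (n : ℝ) * sq u / (n * sq u + 1) < 1 := by
      rw [div_lt_one (by positivity)]
      linarith
    nlinarith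
  set τ : ℝ := Real.sqrt (kin u) with hτ
  have hτ0 : 0 < τ := Real.sqrt_pos.2 h0
  have hτ2 : τ ^ 2 = kin u := Real.sq_sqrt hk
  set N : ℝ := (n : ℝ) ^ (5 / 6 : ℝ) with hNdef
  have hN1 : 1 ≤ N := Real.one_le_rpow hnr (by norm_num)
  have hN0 : 0 < N := by linarith
  set m : ℝ := (n : ℝ) ^ (1 / 6 : ℝ) with hm
  have hm1 : 1 ≤ m := Real.one_le_rpow hnr (by norm_num)
  have hnm : (n : ℝ) = N * m := by
    rw [hNdef, hm, ← Real.rpow_add hn0]
    norm_num
  have hN5 : N ^ (1 / 5 : ℝ) = m := by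
    rw [hNdef, hm, ← Real.rpow_mul hn0.le]
    norm_num
  classical
  have hex : ∃ J : ℕ, N / 2 ^ J ≤ 1 := by
    obtain ⟨J, hJ⟩ := pow_unbounded_of_one_lt N (one_lt_two (α := ℝ))
    exact ⟨J, (div_le_one (by positivity)).2 hJ.le⟩
  set J := Nat.find hex with hJdef
  have hJ : N / 2 ^ J ≤ 1 := Nat.find_spec hex
  have h1 := attm_int hH a u hS (N / τ) (1 / τ) (by positivity) (by positivity) J (by
    rw [div_div, mul_comm τ, ← div_div]
    exact div_le_div_of_nonneg_right hJ hτ0.le)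
  have h2 : (n : ℝ) * sq u / (N / τ) ≤ 2 * (m * τ) := by
    rw [div_le_iff₀ (by positivity)]
    calc (n : ℝ) * sq u ≤ n * 2 := mul_le_mul_of_nonneg_left hq hn0.le
      _ = 2 * (m * τ) * (N / τ) := by rw [hnm]; field_simp
  have h3 : 1 / τ * (4 * kin u) = 4 * τ := by
    rw [← hτ2]
    field_simp
  have h4 : ∀ j ∈ Finset.range J, 2 / (N / τ / 2 ^ j) * one (ballc a (N / τ / 2 ^ j)) u ≤
      4 * C * (m * τ) * p⁻¹ ^ j := by
    intro j hj
    have h5 : ¬ N / 2 ^ j ≤ 1 := Nat.find_min hex (Finset.mem_range.1 hj)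
    rw [not_le] at h5
    set ρ : ℝ := N / 2 ^ j with hρ
    have hρ0 : 0 < ρ := by linarith
    have h6 : N / τ / 2 ^ j = ρ / τ := by
      rw [hρ]
      field_simp
    rw [h6]
    have h7 := hN n u a hS hA hq (ρ / τ) (by positivity)
    have h8 : kin u * (ρ / τ) ^ 2 = ρ ^ 2 := by
      rw [← hτ2]
      field_simp
    rw [h8] at h7
    have h9 : (ρ ^ 2) ^ (3 / 5 : ℝ) = ρ * ρ ^ (1 / 5 : ℝ) := by
      rw [← Real.rpow_natCast ρ 2, ← Real.rpow_mul hρ0.le]
      conv_rhs => rw [← Real.rpow_one ρ, Real.rpow_one, ← Real.rpow_one_add' hρ0.le (by norm_num)]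
      norm_num
    have h10 : 1 ≤ (ρ ^ 2) ^ (3 / 5 : ℝ) :=
      Real.one_le_rpow (one_le_pow₀ h5.le) (by norm_num)
    have h11 : ρ ^ (1 / 5 : ℝ) = m * p⁻¹ ^ j := by
      rw [hρ, Real.div_rpow hN0.le (by positivity), hN5, ← Real.rpow_natCast, ← Real.rpow_mul
        (by norm_num), mul_comm (j : ℝ), Real.rpow_mul (by norm_num), Real.rpow_natCast, ← hp,
        inv_pow, div_eq_mul_inv]
    have h12 : 2 / (ρ / τ) = 2 * τ / ρ := by field_simp
    rw [h12]
    calc 2 * τ / ρ * one (ballc a (ρ / τ)) u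
        ≤ 2 * τ / ρ * (C * (1 + (ρ ^ 2) ^ (3 / 5 : ℝ))) :=
          mul_le_mul_of_nonneg_left h7 (by positivity)
      _ ≤ 2 * τ / ρ * (C * (2 * (ρ ^ 2) ^ (3 / 5 : ℝ))) := by
          refine mul_le_mul_of_nonneg_left (mul_le_mul_of_nonneg_left ?_ hC.le) (by positivity)
          linarith
      _ = 4 * C * (ρ ^ (1 / 5 : ℝ) * τ) := by
          rw [h9]
          field_simp
          ring
      _ = 4 * C * (m * τ) * p⁻¹ ^ j := by
          rw [h11]
          ring
  have h5 : ∑ j ∈ Finset.range J, 2 / (N / τ / 2 ^ j) * one (ballc a (N / τ / 2 ^ j)) u ≤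
      4 * C * (m * τ) * K := by
    refine (Finset.sum_le_sum h4).trans ?_
    rw [← Finset.mul_sum]
    refine mul_le_mul_of_nonneg_left ?_ (by positivity)
    rw [hK, ← tsum_geometric_of_lt_one hip0 hip]
    exact (summable_geometric_of_lt_one hip0 hip).sum_le_tsum _ fun j _ => pow_nonneg hip0 j
  rw [h3] at h1
  have h6 : 4 * τ ≤ 4 * (m * τ) := by nlinarith
  have h7 : (6 + 4 * C * K) * m * τ = 2 * (m * τ) + 4 * (m * τ) + 4 * C * (m * τ) * K := by ring
  rw [h7]
  linarith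

end Pool.Agent.Helper95.PW
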