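import Pool.Agent.Helper40.NSK.Top4
import Pool.Agent.Helper31.EC.Ring

/-! PERMUTATION OF COORDINATES: the permuted system has literally the same partitions, labels, profiles. -/

set_option autoImplicit false

namespace Pool.Agent.Helper46.PM

open Finset Filter Topology Pool.Agent.Helper69.RK Pool.Agent.Helper31.EC Pool.Agent.Helper31.EC.Sp
open Pool.Agent.Helper40.EL Pool.Agent.Helper42.NS Pool.Agent.Helper52.KP Pool.Agent.Helper52.SL
open Pool.Agent.Helper80.MX

noncomputable section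

variable {S : Sp} {m : ℕ} (e : Equiv.Perm (Fin m))

/-- permuted vector variable -/
def pmv (y : S.VV m) : S.VV m where
  v := fun k ω i => y.v k ω (e i)
  bd := by
    obtain ⟨K, hK, h⟩ := y.bd
    exact ⟨K, hK, by filter_upwards [h] with k hk ω hω i using hk ω hω (e i)⟩

theorem ker_pm {Ω : Type} (f : Ω → Fin m → ℤ) : Setoid.ker (fun ω i => f ω (e i)) = Setoid.ker f := by
  ext ω ω'
  show ((fun i => f ω (e i)) = fun i => f ω' (e i)) ↔ f ω = f ω'
  constructor
  · intro h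
    funext i
    have := congrFun h (e.symm i)
    simpa using this
  · intro h
    rw [h]

theorem pmv_ker (y : S.VV m) (r : ℝ) (k : ℕ) : Setoid.ker ((pmv e y).cellv r k) = Setoid.ker (y.cellv r k) :=
  ker_pm e (y.cellv r k)

theorem pmv_dg (y : S.VV m) (r : ℝ) : (pmv e y).dg r = y.dg r := by
  have h1 : ((pmv e y).bdd r).toInf = (y.bdd r).toInf := by
    apply Subtype.ext
    funext k
    exact pmv_ker e y r k
  unfold VV.dg
  rw [io_eq ((pmv e y).bdd r), io_eq (y.bdd r), h1]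

/-- permuted finite system -/
def fpm (X : FSy m) : FSy m := ⟨X.F, fun ω i => X.a ω (e i), fun ω i => X.x ω (e i), X.t⟩

theorem fpm_ka (X : FSy m) (r : ℝ) : (fpm e X).ka r = X.ka r := ker_pm e fun ω => Sp.cell (X.dl r) (X.a ω)
theorem fpm_kx (X : FSy m) (r : ℝ) : (fpm e X).kx r = X.kx r := ker_pm e fun ω => Sp.cell (X.dl r) (X.x ω)
theorem fpm_kt (X : FSy m) (r : ℝ) : (fpm e X).kt r = X.kt r := rfl
theorem fpm_kP (X : FSy m) (r : ℝ) : (fpm e X).kP r = X.kP r := ker_pm e fun ω => Sp.cell (X.dl r) (X.P ω)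

theorem fpm_PA (X : FSy m) (c : ℝ) : PA (fpm e X) c = PA X c := by
  unfold PA
  rw [fpm_ka, fpm_kx, fpm_kt]
  rfl

theorem fpm_PB (X : FSy m) : PB (fpm e X) = PB X := by
  unfold PB
  rw [fpm_kP, fpm_kt]
  rfl

theorem fpm_q (X : FSy m) (A B : Setoid X.F.Ω) : (fpm e X).q A B = X.q A B := rfl

end

end Pool.Agent.Helper46.PM

namespace Pool.Agent.Helper31.EC.Sys

open Pool.Agent.Helper31.EC Pool.Agent.Helper46.PM

/-- THE PERMUTED SYSTEM: `(s.pm e).a i = s.a (e i)`, `(s.pm e).x i = s.x (e i)` -/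
noncomputable def pm {S : Sp} {m : ℕ} (s : Sys S m) (e : Equiv.Perm (Fin m)) : Sys S m where
  a := pmv e s.a
  x := pmv e s.x
  t := s.t
  ht := by
    rw [pmv_dg, pmv_dg]
    exact s.ht

end Pool.Agent.Helper31.EC.Sys

namespace Pool.Agent.Helper46.PM

open Finset Filter Topology Pool.Agent.Helper69.RK Pool.Agent.Helper31.EC Pool.Agent.Helper31.EC.Sp
open Pool.Agent.Helper40.EL Pool.Agent.Helper42.NS Pool.Agent.Helper52.KP Pool.Agent.Helper52.SL
open Pool.Agent.Helper80.MX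

noncomputable section

variable {S : Sp} {m : ℕ} (s : Sys S m) (e : Equiv.Perm (Fin m))

theorem pm_a (k : ℕ) (ω : (S.F k).Ω) (i : Fin m) : (s.pm e).a.v k ω i = s.a.v k ω (e i) := rfl
theorem pm_x (k : ℕ) (ω : (S.F k).Ω) (i : Fin m) : (s.pm e).x.v k ω i = s.x.v k ω (e i) := rfl
theorem pm_P (k : ℕ) (ω : (S.F k).Ω) (i : Fin m) : (s.pm e).P.v k ω i = s.P.v k ω (e i) := rfl
theorem pm_t : (s.pm e).t = s.t := rfl
theorem pm_Pv : (s.pm e).P = pmv e s.P := rfl

theorem pm_fin (k : ℕ) : (s.pm e).fin k = fpm e (s.fin k) := rfl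

theorem pm_a_dg (r : ℝ) : (s.pm e).a.dg r = s.a.dg r := pmv_dg e s.a r
theorem pm_x_dg (r : ℝ) : (s.pm e).x.dg r = s.x.dg r := pmv_dg e s.x r
theorem pm_P_dg (r : ℝ) : (s.pm e).P.dg r = s.P.dg r := pmv_dg e s.P r
theorem pm_t_dg (r : ℝ) : (s.pm e).t.dg r = s.t.dg r := rfl
theorem pm_T : (s.pm e).T = s.T := rfl

theorem pm_xi (r : ℝ) : (s.pm e).xi r = s.xi r := by
  unfold Sys.xi
  rw [pm_a_dg, pm_x_dg]

theorem pm_lA (c : ℝ) : lA (s.pm e) c = lA s c := by
  unfold lA
  rw [pm_xi]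
  rfl

theorem pm_lB : lB (s.pm e) = lB s := by
  unfold lB
  rw [pm_P_dg]
  rfl

theorem pm_F : (s.pm e).F = s.F := by
  funext u r
  unfold Sys.F
  rw [pm_x_dg, pm_P_dg]
  rfl

theorem pm_defic (b : ℝ) : defic (s.pm e) b = defic s b := by
  unfold defic
  rw [pm_F]

theorem pm_ric (r : ℝ) : ric (s.pm e) r = ric s r := by
  unfold ric
  rw [pm_x_dg, pm_lB]

/-- coordinates -/
theorem pm_cor_x (i : Fin m) : TR.cor (s.pm e).x i = TR.cor s.x (e i) := rfl
theorem pm_cor_a (i : Fin m) : TR.cor (s.pm e).a i = TR.cor s.a (e i) := rfl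
theorem pm_cor_P (i : Fin m) : TR.cor (s.pm e).P i = TR.cor s.P (e i) := rfl

/-! ### partitions and labels -/

theorem pm_ka (k : ℕ) (r : ℝ) : ((s.pm e).fin k).ka r = (s.fin k).ka r := fpm_ka e (s.fin k) r
theorem pm_kx (k : ℕ) (r : ℝ) : ((s.pm e).fin k).kx r = (s.fin k).kx r := fpm_kx e (s.fin k) r
theorem pm_kt (k : ℕ) (r : ℝ) : ((s.pm e).fin k).kt r = (s.fin k).kt r := rfl
theorem pm_kP (k : ℕ) (r : ℝ) : ((s.pm e).fin k).kP r = (s.fin k).kP r := fpm_kP e (s.fin k) r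

theorem pm_cA (c : ℝ) : cA (s.pm e) c = cA s c := by
  funext k
  exact fpm_PA e (s.fin k) c

theorem pm_cB : cB (s.pm e) = cB s := by
  funext k
  exact fpm_PB e (s.fin k)

theorem pm_pA (c : ℝ) : pA (s.pm e) c = pA s c := by
  funext k
  exact fpm_PA e (s.fin k) c

theorem pm_pB : pB (s.pm e) = pB s := by
  funext k
  exact fpm_PB e (s.fin k)

theorem pm_Ia (r : ℝ) : (s.pm e).Ia r = s.Ia r := by
  apply Subtype.ext
  funext k
  exact pmv_ker e s.a r k

theorem pm_Ix (r : ℝ) : (s.pm e).Ix r = s.Ix r := by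
  apply Subtype.ext
  funext k
  exact pmv_ker e s.x r k

theorem pm_IP (r : ℝ) : (s.pm e).IP r = s.IP r := by
  apply Subtype.ext
  funext k
  exact pmv_ker e s.P r k

theorem pm_It (r : ℝ) : (s.pm e).It r = s.It r := rfl

theorem pm_DMc (c : ℝ) (l : Lab S) : DMc (s.pm e) c l ↔ DMc s c l := by
  unfold DMc
  rw [pm_cA, pm_cB]

theorem pm_IsKap (c : ℝ) (l : Lab S) : IsKap (s.pm e) c l ↔ IsKap s c l := by
  unfold IsKap
  rw [pm_cA, pm_cB]

theorem choose_congr {α : Type*} {p q : α → Prop} (h : p = q) (hp : ∃ a, p a) (hq : ∃ a, q a) :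
    hp.choose = hq.choose := by
  subst h
  rfl

theorem pm_kap (c : ℝ) : kap (s.pm e) c = kap s c := by
  unfold kap
  apply choose_congr
  funext l
  exact propext (pm_IsKap s e c l)

theorem pm_ic (c : ℝ) : Helper40.EL.ic (s.pm e) c = Helper40.EL.ic s c := by
  unfold Helper40.EL.ic
  rw [pm_kap]

/-! ### restrictions, extensions, truncations -/

theorem pm_im {T : Sp} (p : Pj T S) (E : ∀ k, (T.F k).Ω → Prop) (hE : 0 < ul (T.pr E)) :
    (s.pm e).im p E hE = (s.im p E hE).pm e := rfl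

theorem pm_pull {T : Sp} (p : Pj T S) : (s.pm e).pull p = (s.pull p).pm e := rfl

theorem pm_trn {r : ℝ} (h0 : 0 < r) (h1 : r ≤ 1) : trn (s.pm e) r h0 h1 = (trn s r h0 h1).pm e := rfl

theorem pm_pm (e' : Equiv.Perm (Fin m)) : (s.pm e).pm e' = s.pm (e'.trans e) := rfl

theorem pm_refl : s.pm (Equiv.refl _) = s := rfl

theorem pm_symm : (s.pm e).pm e.symm = s := by
  rw [pm_pm, Equiv.symm_trans_self]
  rfl

/-! ### richness and robustness -/

theorem pm_Rich {g : ℝ} : Rich (s.pm e) g ↔ Rich s g := by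
  unfold Rich
  constructor
  · intro h T p E hE r a b
    have := h T p E hE r a b
    rw [pm_im, pm_ric] at this
    exact this
  · intro h T p E hE r a b
    rw [pm_im, pm_ric]
    exact h T p E hE r a b

/-- the functional of the permuted system -/
def _root_.Pool.Agent.Helper42.NS.Fnl.pm (Φ : Fnl m) (e : Equiv.Perm (Fin m)) : Fnl m where
  f := fun S s => Φ.f S (s.pm e)
  nn := fun _ _ => Φ.nn _ _
  usc := by
    intro S s _
    obtain ⟨E, hE, h2⟩ := Φ.usc S (fun j => (s j).pm e) (fun _ => trivial)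
    exact ⟨E, hE, fun T u J hd => h2 _ (u.pm e) J
      ⟨hd.tend, fun k => congrArg (fpm e) (hd.fin k), hd.slow⟩⟩
  spl := fun S s T p E hE hE' => Φ.spl _ (s.pm e) _ p E hE hE'
  typ := fun S s T p E hE ht => Φ.typ _ (s.pm e) _ p E hE ht
  pull := fun S s T p => Φ.pull _ (s.pm e) _ p

theorem RobF_pm {Φ : Fnl m} : RobF (Φ.pm e) s ↔ RobF Φ (s.pm e) := Iff.rfl

theorem pm_RobP : Helper52.SL.RobP (s.pm e) ↔ Helper52.SL.RobP s := by
  have h1 : ∀ (u r : ℝ) (S : Sp) (s : Sys S m), (prF u r).f S (s.pm e) = (prF u r).f S s := by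
    intro u r S s
    show (s.pm e).F u r = s.F u r
    rw [pm_F]
  unfold Helper52.SL.RobP RobF
  constructor
  · intro h u r a b c d T p E hE
    have := h u r a b c d T p E hE
    rw [pm_im, h1, h1] at this
    exact this
  · intro h u r a b c d T p E hE
    rw [pm_im, h1, h1]
    exact h u r a b c d T p E hE

theorem pm_RobustI : RobustI (s.pm e) ↔ RobustI s := by
  unfold RobustI Rig
  constructor
  · intro h c a b T p E hE
    have h1 : Helper40.EL.ic ((s.pm e).im p E hE) c = Helper40.EL.ic (s.pm e) c := h c a b T p E hE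
    rw [pm_im, pm_ic, pm_ic] at h1
    exact h1
  · intro h c a b T p E hE
    show Helper40.EL.ic ((s.pm e).im p E hE) c = Helper40.EL.ic (s.pm e) c
    rw [pm_im, pm_ic, pm_ic]
    exact h c a b T p E hE

end

end Pool.Agent.Helper46.PM
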