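import Pool.Agent.Helper46.PM.Pol

/-! Permutation of coordinates: gauges, `psi`, `HH`; labels with forms, thickness, volumes. -/

set_option autoImplicit false

namespace Pool.Agent.Helper46.PM

open Finset Filter Topology Matrix Pool.Agent.Helper69.RK Pool.Agent.Helper31.EC Pool.Agent.Helper31.EC.Sp
open Pool.Agent.Helper40.EL Pool.Agent.Helper42.NS Pool.Agent.Helper52.KP Pool.Agent.Helper52.SL
open Pool.Agent.Helper89.LX Pool.Agent.Helper3.LF Pool.Agent.Helper3.SG Pool.Agent.Helper48.NS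
open Pool.Agent.Helper3.PR

noncomputable section

variable {S : Sp} {m : ℕ}

/-! ### gauges -/

/-- the gauge of the permuted system -/
def _root_.Pool.Agent.Helper42.NS.Gg.pm (G : Gg m) (e : Equiv.Perm (Fin m)) : Gg m where
  Frm := G.Frm
  cap := G.cap
  phi := fun n A a x t => G.phi n A (fun i => a (e i)) (fun i => x (e i)) t
  gam := fun n A a x t => G.gam n A (fun i => a (e i)) (fun i => x (e i)) t
  one := G.one
  cap_one := G.cap_one
  D := G.D
  C := G.C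
  C0 := G.C0
  phi_one := fun n a x t K hn hK ha hx ht => G.phi_one n _ _ t K hn hK (fun i => ha (e i)) (fun i => hx (e i)) ht

theorem HasQ_pm (G : Gg m) (e : Equiv.Perm (Fin m)) (X : FSy m) (c η x σ : ℝ) :
    HasQ (G.pm e) X c η x σ ↔ HasQ G (fpm e X) c η x σ := by
  constructor
  · rintro ⟨f, h1, h2, h3, h4⟩
    refine ⟨⟨f.l, f.A, f.hA, f.hc⟩, ?_, ?_, h3, h4⟩
    · rw [fpm_PA]; exact h1
    · rw [fpm_PB]; exact h2
  · rintro ⟨f, h1, h2, h3, h4⟩
    refine ⟨⟨f.l, f.A, f.hA, f.hc⟩, ?_, ?_, h3, h4⟩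
    · rw [fpm_PA] at h1; exact h1
    · rw [fpm_PB] at h2; exact h2

/-- THE GAUGES OF THE PERMUTED SYSTEM -/
theorem psi_pm (G : Gg m) (e : Equiv.Perm (Fin m)) (s : Sys S m) (c σ : ℝ) :
    psi (G.pm e) s c σ = psi G (s.pm e) c σ := by
  have h1 : psiS (G.pm e) s c σ = psiS G (s.pm e) c σ := by
    ext x
    show (∀ η : ℝ, 0 < η → ∀ᶠ k in UF, HasQ (G.pm e) (s.fin k) c η x σ) ↔
      ∀ η : ℝ, 0 < η → ∀ᶠ k in UF, HasQ G ((s.pm e).fin k) c η x σ
    simp only [HasQ_pm, pm_fin]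
  unfold psi
  rw [h1]

theorem HH_pm (G : Gg m) (e : Equiv.Perm (Fin m)) (s : Sys S m) (c σ : ℝ) : HH (G.pm e) s c σ ↔ HH G (s.pm e) c σ := by
  rw [HH_iff, HH_iff, psi_pm]

theorem RobustG_pm {ι : Type} (G : ι → Gg m) (e : Equiv.Perm (Fin m)) (s : Sys S m) :
    RobustG (fun i => (G i).pm e) s ↔ RobustG G (s.pm e) := by
  unfold RobustG
  constructor
  · intro h i T p E hE c σ
    have := h i T p E hE c σ
    rw [psi_pm, psi_pm] at this
    exact this
  · intro h i T p E hE c σ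
    rw [psi_pm, psi_pm]
    exact h i T p E hE c σ

/-- gauges with the same values up to a bijection of the forms -/
theorem psi_congr {G G' : Gg m} (F : G.Frm ≃ G'.Frm) (hc : ∀ n A, 0 < n → (G'.cap n (F A) ↔ G.cap n A))
    (hp : ∀ n A a x t, G'.phi n (F A) a x t = G.phi n A a x t)
    (hg : ∀ n A a x t, G'.gam n (F A) a x t = G.gam n A a x t) (s : Sys S m) (c σ : ℝ) :
    psi G s c σ = psi G' s c σ := by
  have h0 : ∀ (X : FSy m) (c η x σ : ℝ), HasQ G X c η x σ ↔ HasQ G' X c η x σ := by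
    intro X c η x σ
    constructor
    · rintro ⟨f, h1, h2, h3, h4⟩
      refine ⟨⟨f.l, fun ω => F (f.A ω), fun ω ω' a b c' d => by rw [f.hA ω ω' a b c' d],
        fun ω hω => (hc _ _ X.F.pos).mpr (f.hc ω hω)⟩, h1, h2, ?_, ?_⟩
      · refine h3.trans (f.l.T.pb_mono fun ω _ h => ?_)
        show G'.phi _ (F (f.A ω)) _ _ _ ≤ _
        rw [hp]
        exact h
      · refine h4.trans (f.l.T.pb_mono fun ω _ h => ?_)
        show _ ≤ G'.gam _ (F (f.A ω)) _ _ _
        rw [hg]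
        exact h
    · rintro ⟨f, h1, h2, h3, h4⟩
      have hp' : ∀ n A a x t, G.phi n (F.symm A) a x t = G'.phi n A a x t := fun n A a x t => by
        rw [← hp, Equiv.apply_symm_apply]
      have hg' : ∀ n A a x t, G.gam n (F.symm A) a x t = G'.gam n A a x t := fun n A a x t => by
        rw [← hg, Equiv.apply_symm_apply]
      refine ⟨⟨f.l, fun ω => F.symm (f.A ω), fun ω ω' a b c' d => by rw [f.hA ω ω' a b c' d],
        fun ω hω => (hc _ _ X.F.pos).mp (by rw [Equiv.apply_symm_apply]; exact f.hc ω hω)⟩, h1, h2, ?_, ?_⟩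
      · refine h3.trans (f.l.T.pb_mono fun ω _ h => ?_)
        show G.phi _ (F.symm (f.A ω)) _ _ _ ≤ _
        rw [hp']
        exact h
      · refine h4.trans (f.l.T.pb_mono fun ω _ h => ?_)
        show _ ≤ G.gam _ (F.symm (f.A ω)) _ _ _
        rw [hg']
        exact h
  have h1 : psiS G s c σ = psiS G' s c σ := by
    ext x
    show (∀ η : ℝ, 0 < η → ∀ᶠ k in UF, HasQ G (s.fin k) c η x σ) ↔
      ∀ η : ℝ, 0 < η → ∀ᶠ k in UF, HasQ G' (s.fin k) c η x σ
    simp only [h0]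
  unfold psi
  rw [h1]

/-! ### the gauges of forms -/

theorem psi_GD (D : ℕ) (s : Sys S m) (e : Equiv.Perm (Fin m)) (c σ : ℝ) :
    psi (GD m D) (s.pm e) c σ = psi (GD m D) s c σ := by
  rw [← psi_pm]
  refine psi_congr (G := (GD m D).pm e) (G' := GD m D) (rx (ex e)) (fun n A _ => rx_Cpd (ex e)) (fun n A a x t => ?_)
    (fun n A a x t => ?_) s c σ
  · show phi _ (rx (ex e) A) (pl a x t) = phi _ A (pl (fun i => a (e i)) (fun i => x (e i)) t)
    rw [pl_ex]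
    exact (phi_rx (ex e) _ A (pl a x t)).symm
  · show gam _ (rx (ex e) A) (pl a x t) = gam _ A (pl (fun i => a (e i)) (fun i => x (e i)) t)
    rw [pl_ex]
    exact (gam_rx (ex e) _ A (pl a x t)).symm

theorem Jf_single (r : ℝ) {D : ℕ} (A : Matrix (Mon (m + 1) D) (Mon (m + 1) D) ℝ) (p : Fin (m + 1) → ℝ) (i : Fin m) :
    (Pi.single i (1 : ℝ) : Fin m → ℝ) ⬝ᵥ (Jf r A p *ᵥ Pi.single i 1) = Jf r A p i i := by
  rw [single_dotProduct, Matrix.mulVec_single_one, one_mul]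
  rfl

theorem psi_GDe (D : ℕ) (s : Sys S m) (e : Equiv.Perm (Fin m)) (i : Fin m) (c σ : ℝ) :
    psi (Pool.Agent.Helper40.NSK.GDe m D (Pi.single i 1)) (s.pm e) c σ =
      psi (Pool.Agent.Helper40.NSK.GDe m D (Pi.single (e i) 1)) s c σ := by
  rw [← psi_pm]
  refine psi_congr (G := (Pool.Agent.Helper40.NSK.GDe m D (Pi.single i 1)).pm e)
    (G' := Pool.Agent.Helper40.NSK.GDe m D (Pi.single (e i) 1)) (rx (ex e)) (fun n A _ => rx_Cpd (ex e))
    (fun n A a x t => ?_) (fun n A a x t => ?_) s c σ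
  · show phi _ (rx (ex e) A) (pl a x t) = phi _ A (pl (fun i => a (e i)) (fun i => x (e i)) t)
    rw [pl_ex]
    exact (phi_rx (ex e) _ A (pl a x t)).symm
  · show (Pi.single (e i) (1 : ℝ) : Fin m → ℝ) ⬝ᵥ (Jf _ (rx (ex e) A) (pl a x t) *ᵥ Pi.single (e i) 1) =
      (Pi.single i (1 : ℝ) : Fin m → ℝ) ⬝ᵥ (Jf _ A (pl (fun i => a (e i)) (fun i => x (e i)) t) *ᵥ Pi.single i 1)
    rw [pl_ex]
    refine (Jf_single _ (rx (ex e) A) _ (e i)).trans (Eq.trans ?_ (Jf_single _ (D := D) A _ i).symm)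
    exact (Jf_rx e _ A (pl a x t) i i).symm

/-! ### labels with forms on a factor -/

section forms
variable {q D : ℕ}

/-- the forms in the permuted variables -/
def FDrx {ι : Type} {F : FSp} (ρ : Matrix ι ι ℝ → Matrix ι ι ℝ) (x : FD F ι) : FD F ι where
  l := x.l
  g := fun ω => ρ (x.g ω)
  g' := fun ω => ρ (x.g' ω)
  meas := fun ω ω' a b c d => by rw [(x.meas ω ω' a b c d).1, (x.meas ω ω' a b c d).2]; exact ⟨rfl, rfl⟩

theorem ptf_pm (s' : Sys S q) (π : Equiv.Perm (Fin q)) (k : ℕ) (ω : (S.F k).Ω) :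
    ptf (s'.pm π) k ω = fun j => ptf s' k ω (ex π j) := pl_ex π _ _ _

theorem sph_pm (s' : Sys S q) (π : Equiv.Perm (Fin q)) (k : ℕ) (ω : (S.F k).Ω)
    (A : Matrix (Mon (q + 1) D) (Mon (q + 1) D) ℝ) : sph (s'.pm π) D k ω A = sph s' D k ω (rx (ex π) A) := by
  unfold sph
  rw [ptf_pm, phi_rx]

theorem sga_pm (s' : Sys S q) (π : Equiv.Perm (Fin q)) (k : ℕ) (ω : (S.F k).Ω)
    (A : Matrix (Mon (q + 1) D) (Mon (q + 1) D) ℝ) : sga (s'.pm π) D k ω A = sga s' D k ω (rx (ex π) A) := by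
  unfold sga
  rw [ptf_pm, gam_rx]

theorem Adm_pm (s' : Sys S q) (π : Equiv.Perm (Fin q)) {A B : Part S} {η : ℝ} {k : ℕ}
    (x : FD (S.F k) (Mon (q + 1) D)) : (gau s' D).Adm A B η k (FDrx (rx (ex π)) x) ↔
      (gau (s'.pm π) D).Adm A B η k x := by
  have hC : (gau s' D).C = (gau (s'.pm π) D).C := rfl
  have hcp : (gau s' D).cp k = (gau (s'.pm π) D).cp k := by
    unfold Gau.cp
    rw [hC]
  have h1 : ∀ ω M, (gau (s'.pm π) D).φ k ω M = (gau s' D).φ k ω (rx (ex π) M) := fun ω M => sph_pm s' π k ω M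
  unfold Gau.Adm
  simp only [h1, ← hcp]
  refine and_congr Iff.rfl (and_congr Iff.rfl (and_congr ?_ Iff.rfl))
  refine forall_congr' fun ω => imp_congr Iff.rfl ?_
  exact and_congr (rx_Cpd (ex π)) (rx_Cpd (ex π))

theorem Ad_pm (s' : Sys S q) (π : Equiv.Perm (Fin q)) {A B : Part S} (x : ∀ k, FD (S.F k) (Mon (q + 1) D)) :
    (gau s' D).Ad A B (fun k => FDrx (rx (ex π)) (x k)) ↔ (gau (s'.pm π) D).Ad A B x := by
  unfold Gau.Ad
  simp only [Adm_pm]

/-- thickness on a permuted factor, one direction -/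
theorem HfP_pm_aux {s : Sys S m} {s' : Sys S q} {π : Equiv.Perm (Fin q)} {c σ : ℝ} (h : HfP s (s'.pm π) D c σ) :
    HfP s s' D c σ := by
  obtain ⟨x, hx, h1⟩ := h
  refine ⟨fun k => FDrx (rx (ex π)) (x k), (Ad_pm s' π x).mpr hx, fun e he => ?_⟩
  refine (h1 e he).congr fun k => ?_
  simp only [sga_pm]
  rfl

/-- the thickness does not depend on the order of the coordinates of the factor -/
theorem HfP_pm {s : Sys S m} {s' : Sys S q} {π : Equiv.Perm (Fin q)} {c σ : ℝ} :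
    HfP s (s'.pm π) D c σ ↔ HfP s s' D c σ := by
  refine ⟨HfP_pm_aux, fun h => ?_⟩
  apply HfP_pm_aux (π := π.symm)
  rw [pm_symm]
  exact h

/-- the labels of the permuted system are the same -/
theorem HfP_pm' {s : Sys S m} {s' : Sys S q} {e : Equiv.Perm (Fin m)} {c σ : ℝ} :
    HfP (s.pm e) s' D c σ ↔ HfP s s' D c σ := by
  unfold HfP
  rw [pm_cA, pm_cB]

theorem Hf_pm {s : Sys S m} {e : Equiv.Perm (Fin m)} {c σ : ℝ} : Hf (s.pm e) D c σ ↔ Hf s D c σ := by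
  rw [← HfP_self, HfP_pm', HfP_pm, HfP_self]

theorem eta_pm (s : Sys S m) (e : Equiv.Perm (Fin m)) (c : ℝ) : eta (s.pm e) D c = eta s D c := by
  unfold eta
  simp only [Hf_pm]

theorem cst_pm (s : Sys S m) (e : Equiv.Perm (Fin m)) (c : ℝ) : cst (s.pm e) D c = cst s D c := by
  unfold cst
  simp only [Hf_pm]

theorem lamP_pm (s : Sys S m) (s' : Sys S q) (π : Equiv.Perm (Fin q)) (c : ℝ) :
    lamP s (s'.pm π) D c = lamP s s' D c := by
  unfold lamP
  simp only [HfP_pm]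

theorem lamP_pm' (s : Sys S m) (s' : Sys S q) (e : Equiv.Perm (Fin m)) (c : ℝ) :
    lamP (s.pm e) s' D c = lamP s s' D c := by
  unfold lamP
  simp only [HfP_pm']

/-! ### volumes -/

theorem FDrx_sc (ε : Equiv.Perm (Fin (q + 1))) {F : FSp} (x : FD F (Mon (q + 1) D)) : (FDrx (rx ε) x).sc = x.sc := by
  unfold FD.sc
  refine Finset.sum_congr rfl fun ω _ => ?_
  show x.l.T.μ ω * Real.logb 2 (rx ε (x.g ω)).det = _
  rw [rx_det]

theorem FDrx_rx (π : Equiv.Perm (Fin q)) {F : FSp} (x : FD F (Mon (q + 1) D)) :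
    FDrx (rx (ex π)) (FDrx (rx (ex π)).symm x) = x := by
  unfold FDrx
  simp only [Equiv.apply_symm_apply]

theorem Opt_pm (s' : Sys S q) (π : Equiv.Perm (Fin q)) {A B : Part S} (x : ∀ k, FD (S.F k) (Mon (q + 1) D)) :
    (gau s' D).Opt A B (fun k => FDrx (rx (ex π)) (x k)) ↔ (gau (s'.pm π) D).Opt A B x := by
  unfold Gau.Opt
  simp only [Ad_pm, FDrx_sc]
  refine and_congr_right fun _ => ⟨fun h y hy => ?_, fun h y hy => ?_⟩
  · have h1 := h (fun k => FDrx (rx (ex π)) (y k)) ((Ad_pm s' π y).mpr hy)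
    simp only [FDrx_sc] at h1
    exact h1
  · have h0 : (fun k => FDrx (rx (ex π)) (FDrx (rx (ex π)).symm (y k))) = y := funext fun k => FDrx_rx π (y k)
    have h1 := h (fun k => FDrx (rx (ex π)).symm (y k)) ((Ad_pm s' π _).mp (by rw [h0]; exact hy))
    have h2 : ∀ k, (FDrx (rx (ex π)).symm (y k)).sc = (y k).sc := fun k => by
      rw [← FDrx_sc (ex π), FDrx_rx]
    simp only [h2] at h1
    exact h1

theorem lgd_pm (s' : Sys S q) (π : Equiv.Perm (Fin q)) (x : ∀ k, FD (S.F k) (Mon (q + 1) D)) (k : ℕ) :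
    lgd (s'.pm π) D x k = lgd s' D (fun k => FDrx (rx (ex π)) (x k)) k := by
  unfold lgd
  refine Finset.sum_congr rfl fun ω _ => ?_
  rw [ptf_pm, GG_rx]
  rfl

theorem lvolP_pm (s : Sys S m) (s' : Sys S q) (π : Equiv.Perm (Fin q)) (c : ℝ) :
    Helper3.SG.lvolP s (s'.pm π) D c = Helper3.SG.lvolP s s' D c := by
  obtain ⟨x, hx⟩ := exists_canP s (s'.pm π) D c
  have h1 : (fun k => lgd (s'.pm π) D x k / (S.F k).n) =
      fun k => lgd s' D (fun k => FDrx (rx (ex π)) (x k)) k / (S.F k).n := by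
    funext k
    rw [lgd_pm]
  have h2 := Helper3.SG.lvolP_eq s (s'.pm π) hx.1
  have h3 := Helper3.SG.lvolP_eq s s' ((Opt_pm s' π x).mpr hx.1)
  rw [h1] at h2
  exact h2.symm.trans h3

theorem lvolP_pm' (s : Sys S m) (s' : Sys S q) (e : Equiv.Perm (Fin m)) (c : ℝ) :
    Helper3.SG.lvolP (s.pm e) s' D c = Helper3.SG.lvolP s s' D c := by
  obtain ⟨x, hx⟩ := exists_canP s s' D c
  have hx' : (gau s' D).Opt (cA (s.pm e) c) (cB (s.pm e)) x := by
    rw [pm_cA, pm_cB]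
    exact hx.1
  rw [← Helper3.SG.lvolP_eq (s.pm e) s' hx', ← Helper3.SG.lvolP_eq s s' hx.1]

theorem lvolP2_pm (s : Sys S m) (s' : Sys S q) (π : Equiv.Perm (Fin q)) (c : ℝ) :
    Helper52.SL.lvolP s (s'.pm π) D c = Helper52.SL.lvolP s s' D c := by
  obtain ⟨x, hx⟩ := exists_canP s (s'.pm π) D c
  have h1 : (fun k => lgd (s'.pm π) D x k / (S.F k).n) =
      fun k => lgd s' D (fun k => FDrx (rx (ex π)) (x k)) k / (S.F k).n := by
    funext k
    rw [lgd_pm]
  have h2 := Helper52.SL.lvolP_eq s (s'.pm π) hx.1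
  have h3 := Helper52.SL.lvolP_eq s s' ((Opt_pm s' π x).mpr hx.1)
  rw [h1] at h2
  exact h2.symm.trans h3

theorem lvolP2_pm' (s : Sys S m) (s' : Sys S q) (e : Equiv.Perm (Fin m)) (c : ℝ) :
    Helper52.SL.lvolP (s.pm e) s' D c = Helper52.SL.lvolP s s' D c := by
  unfold Helper52.SL.lvolP
  rw [pm_cA, pm_cB]

end forms

/-! ### factors -/

theorem Fac_pm {q : ℕ} {s : Sys S m} {s' : Sys S q} (e : Equiv.Perm (Fin m)) (h : Fac s s') : Fac (s.pm e) s' where
  ft := h.ft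
  fxi := by
    rw [pm_xi]
    exact h.fxi
  fP := by
    rw [pm_lB]
    exact h.fP

theorem Fac_pm' {q : ℕ} {s : Sys S m} {s' : Sys S q} (π : Equiv.Perm (Fin q)) (h : Fac s s') : Fac s (s'.pm π) where
  ft := h.ft
  fxi := by
    rw [pm_xi]
    exact h.fxi
  fP := by
    rw [pm_P_dg]
    exact h.fP

end

end Pool.Agent.Helper46.PM
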