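import Pool.Agent.Helper46.PM.Bas
import Pool.Agent.Helper48.NS.Gf

/-! Permutation of the variables of forms. -/

set_option autoImplicit false

namespace Pool.Agent.Helper46.PM

open Finset Matrix Pool.Agent.Helper3.LF Pool.Agent.Helper48.NS Pool.Agent.Helper89.LX
open Pool.Agent.Helper95.LF (PdM)

noncomputable section

variable {N D m : ℕ}

/-! ### coordinates of `(t, P)` -/

/-- the permutation of the coordinates of `(t, P)` -/
def ex (e : Equiv.Perm (Fin m)) : Equiv.Perm (Fin (m + 1)) where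
  toFun := Fin.cases 0 fun i => (e i).succ
  invFun := Fin.cases 0 fun i => (e.symm i).succ
  left_inv := fun i => by
    refine Fin.cases ?_ (fun j => ?_) i
    · rfl
    · simp
  right_inv := fun i => by
    refine Fin.cases ?_ (fun j => ?_) i
    · rfl
    · simp

@[simp] theorem ex_zero (e : Equiv.Perm (Fin m)) : ex e 0 = 0 := rfl
@[simp] theorem ex_succ (e : Equiv.Perm (Fin m)) (i : Fin m) : ex e i.succ = (e i).succ := rfl
@[simp] theorem ex_symm (e : Equiv.Perm (Fin m)) : (ex e).symm = ex e.symm := rfl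

theorem pl_ex (e : Equiv.Perm (Fin m)) (a x : Fin m → ℝ) (t : ℝ) :
    pl (fun i => a (e i)) (fun i => x (e i)) t = fun j => pl a x t (ex e j) := by
  funext j
  refine Fin.cases ?_ (fun j => ?_) j
  · rfl
  · rfl

/-! ### monomials -/

/-- permutation of monomials -/
def mp (ε : Equiv.Perm (Fin N)) : Mon N D ≃ Mon N D where
  toFun := fun a => ⟨fun i => a.1 (ε.symm i), by
    rw [Equiv.sum_comp ε.symm fun i => (a.1 i : ℕ)]
    exact a.2⟩
  invFun := fun a => ⟨fun i => a.1 (ε i), by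
    rw [Equiv.sum_comp ε fun i => (a.1 i : ℕ)]
    exact a.2⟩
  left_inv := fun a => Subtype.ext (funext fun i => by simp)
  right_inv := fun a => Subtype.ext (funext fun i => by simp)

theorem mp_mon (ε : Equiv.Perm (Fin N)) (a : Mon N D) : (mp ε a).mon = MvPolynomial.rename ε a.mon := by
  have h : (mp ε a).ex = Finsupp.mapDomain ε a.ex := by
    ext i
    rw [Finsupp.mapDomain_equiv_apply]
    rfl
  unfold Mon.mon
  rw [MvPolynomial.rename_monomial, h]

theorem vv_mp (ε : Equiv.Perm (Fin N)) (p : Fin N → ℝ) (a : Mon N D) : vv (fun i => p (ε i)) a = vv p (mp ε a) := by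
  unfold vv
  rw [mp_mon, MvPolynomial.eval_rename]
  rfl

theorem dd_mp (ε : Equiv.Perm (Fin N)) (p : Fin N → ℝ) (i : Fin N) (a : Mon N D) :
    dd i (fun i => p (ε i)) a = dd (ε i) p (mp ε a) := by
  unfold dd
  rw [mp_mon, MvPolynomial.pderiv_rename ε.injective, MvPolynomial.eval_rename]
  rfl

/-- the form in the permuted variables -/
def rx (ε : Equiv.Perm (Fin N)) : Matrix (Mon N D) (Mon N D) ℝ ≃ Matrix (Mon N D) (Mon N D) ℝ :=
  Matrix.reindex (mp ε) (mp ε)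

theorem rx_dot (ε : Equiv.Perm (Fin N)) (A : Matrix (Mon N D) (Mon N D) ℝ) (u v : Mon N D → ℝ) :
    (fun a => u (mp ε a)) ⬝ᵥ (A *ᵥ fun a => v (mp ε a)) = u ⬝ᵥ (rx ε A *ᵥ v) := by
  have h1 : ∀ a b, rx ε A (mp ε a) (mp ε b) = A a b := fun a b => by
    unfold rx
    rw [Matrix.reindex_apply, Matrix.submatrix_apply, Equiv.symm_apply_apply, Equiv.symm_apply_apply]
  show ∑ a, u (mp ε a) * ∑ b, A a b * v (mp ε b) = ∑ a, u a * ∑ b, rx ε A a b * v b
  rw [← Equiv.sum_comp (mp ε) fun a => u a * ∑ b, rx ε A a b * v b]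
  refine Finset.sum_congr rfl fun a _ => ?_
  rw [← Equiv.sum_comp (mp ε) fun b => rx ε A (mp ε a) b * v b]
  congr 1
  refine Finset.sum_congr rfl fun b _ => ?_
  rw [h1]

theorem rx_qf (ε : Equiv.Perm (Fin N)) (A : Matrix (Mon N D) (Mon N D) ℝ) (v : Mon N D → ℝ) :
    qf A (fun a => v (mp ε a)) = qf (rx ε A) v := rx_dot ε A v v

/-- nodes -/
theorem nodp_ex (ε : Equiv.Perm (Fin N)) (p : Fin N → ℝ) (r : ℝ) (j : Fin N → Fin (D + 1)) :
    nodp D (fun i => p (ε i)) r j = fun i => nodp D p r (fun l => j (ε.symm l)) (ε i) := by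
  funext i
  show p (ε i) + r * nod D (j i) = p (ε i) + r * nod D (j (ε.symm (ε i)))
  rw [Equiv.symm_apply_apply]

theorem sum_nodes (ε : Equiv.Perm (Fin N)) (f : (Fin N → Fin (D + 1)) → ℝ) :
    ∑ j : Fin N → Fin (D + 1), f (fun l => j (ε.symm l)) = ∑ j, f j := by
  have h1 := Equiv.sum_comp (Equiv.arrowCongr ε (Equiv.refl (Fin (D + 1)))) f
  rw [← h1]
  rfl

theorem phi_rx (ε : Equiv.Perm (Fin N)) (r : ℝ) (A : Matrix (Mon N D) (Mon N D) ℝ) (p : Fin N → ℝ) :
    phi r A (fun i => p (ε i)) = phi r (rx ε A) p := by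
  unfold phi
  rw [← sum_nodes ε fun j => vv (nodp D p r j) ⬝ᵥ (rx ε A *ᵥ vv (nodp D p r j))]
  refine Finset.sum_congr rfl fun j _ => ?_
  rw [nodp_ex, ← rx_dot]
  have h1 : (vv (fun i => nodp D p r (fun l => j (ε.symm l)) (ε i)) : Mon N D → ℝ) =
      fun a => vv (nodp D p r fun l => j (ε.symm l)) (mp ε a) := funext fun a => vv_mp ε _ a
  rw [h1]

theorem dd_rx (ε : Equiv.Perm (Fin N)) (r : ℝ) (A : Matrix (Mon N D) (Mon N D) ℝ) (p : Fin N → ℝ) (i i' : Fin N) :
    ∑ j : Fin N → Fin (D + 1), dd i (nodp D (fun i => p (ε i)) r j) ⬝ᵥ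
      (A *ᵥ dd i' (nodp D (fun i => p (ε i)) r j)) =
    ∑ j : Fin N → Fin (D + 1), dd (ε i) (nodp D p r j) ⬝ᵥ (rx ε A *ᵥ dd (ε i') (nodp D p r j)) := by
  rw [← sum_nodes ε fun j => dd (ε i) (nodp D p r j) ⬝ᵥ (rx ε A *ᵥ dd (ε i') (nodp D p r j))]
  refine Finset.sum_congr rfl fun j _ => ?_
  rw [nodp_ex, ← rx_dot]
  have h1 : ∀ i, (dd i (fun i => nodp D p r (fun l => j (ε.symm l)) (ε i)) : Mon N D → ℝ) =
      fun a => dd (ε i) (nodp D p r fun l => j (ε.symm l)) (mp ε a) := fun i => funext fun a => dd_mp ε _ i a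
  rw [h1, h1]

theorem gam_rx (ε : Equiv.Perm (Fin N)) (r : ℝ) (A : Matrix (Mon N D) (Mon N D) ℝ) (p : Fin N → ℝ) :
    gam r A (fun i => p (ε i)) = gam r (rx ε A) p := by
  unfold gam
  rw [← Equiv.sum_comp ε fun i => ∑ j : Fin N → Fin (D + 1), dd i (nodp D p r j) ⬝ᵥ (rx ε A *ᵥ dd i (nodp D p r j))]
  exact Finset.sum_congr rfl fun i _ => dd_rx ε r A p i i

theorem Jf_rx (e : Equiv.Perm (Fin m)) (r : ℝ) (A : Matrix (Mon (m + 1) D) (Mon (m + 1) D) ℝ) (p : Fin (m + 1) → ℝ)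
    (a b : Fin m) : Jf r A (fun i => p (ex e i)) a b = Jf r (rx (ex e) A) p (e a) (e b) := by
  rw [Jf_apply, Jf_apply]
  exact dd_rx (ex e) r A p a.succ b.succ

theorem GG_rx (e : Equiv.Perm (Fin m)) (r : ℝ) (A : Matrix (Mon (m + 1) D) (Mon (m + 1) D) ℝ) (p : Fin (m + 1) → ℝ) :
    GG r A (fun i => p (ex e i)) = GG r (rx (ex e) A) p := by
  unfold GG
  have h1 : 1 + Jf r A (fun i => p (ex e i)) = (1 + Jf r (rx (ex e) A) p).submatrix e e := by
    ext a b
    rw [Matrix.add_apply, Jf_rx, Matrix.submatrix_apply, Matrix.add_apply]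
    congr 1
    by_cases h : a = b
    · rw [h, Matrix.one_apply_eq, Matrix.one_apply_eq]
    · rw [Matrix.one_apply_ne h, Matrix.one_apply_ne fun h' => h (e.injective h')]
  rw [h1, Matrix.det_submatrix_equiv_self]

theorem rx_symm (ε : Equiv.Perm (Fin N)) {A : Matrix (Mon N D) (Mon N D) ℝ} : (rx ε A).IsSymm ↔ A.IsSymm := by
  have h1 : ∀ a b, rx ε A (mp ε a) (mp ε b) = A a b := fun a b => by
    unfold rx
    rw [Matrix.reindex_apply, Matrix.submatrix_apply, Equiv.symm_apply_apply, Equiv.symm_apply_apply]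
  constructor
  · intro h
    ext a b
    have h2 := h.apply (mp ε a) (mp ε b)
    rw [h1, h1] at h2
    exact h2
  · intro h
    ext a b
    have h2 := h.apply ((mp ε).symm a) ((mp ε).symm b)
    rw [← h1, ← h1] at h2
    simp only [Equiv.apply_symm_apply] at h2
    exact h2

theorem dot_mp (ε : Equiv.Perm (Fin N)) (v : Mon N D → ℝ) : (fun a => v (mp ε a)) ⬝ᵥ (fun a => v (mp ε a)) = v ⬝ᵥ v :=
  Equiv.sum_comp (mp ε) fun a => v a * v a

theorem rx_Cpd (ε : Equiv.Perm (Fin N)) {A : Matrix (Mon N D) (Mon N D) ℝ} {c : ℝ} : Cpd c (rx ε A) ↔ Cpd c A := by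
  have h0 : ∀ v : Mon N D → ℝ, (fun a => v ((mp ε).symm (mp ε a))) = v := fun v => by
    funext a
    rw [Equiv.symm_apply_apply]
  unfold Cpd
  rw [rx_symm]
  refine and_congr_right fun _ => and_congr ⟨fun h v => ?_, fun h v => ?_⟩ ⟨fun h v => ?_, fun h v => ?_⟩
  · have h1 := h fun a => v ((mp ε).symm a)
    rw [← rx_qf, ← dot_mp ε, h0] at h1
    exact h1
  · rw [← rx_qf, ← dot_mp ε]
    exact h _
  · have h1 := h fun a => v ((mp ε).symm a)
    rw [← rx_qf, ← dot_mp ε, h0] at h1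
    exact h1
  · rw [← rx_qf, ← dot_mp ε]
    exact h _

theorem rx_det (ε : Equiv.Perm (Fin N)) (A : Matrix (Mon N D) (Mon N D) ℝ) : (rx ε A).det = A.det := by
  unfold rx
  rw [Matrix.reindex_apply, Matrix.det_submatrix_equiv_self]

end

end Pool.Agent.Helper46.PM
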