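import Pool.Agent.Helper46.PM.Gau
import Pool.Agent.Helper46.LI.La5

/-! Permutation of coordinates: coordinate projections, sheets, the selected systems; WLOG statements. -/

set_option autoImplicit false

namespace Pool.Agent.Helper46.PM

open Finset Filter Topology Matrix Pool.Agent.Helper69.RK Pool.Agent.Helper31.EC Pool.Agent.Helper31.EC.Sp
open Pool.Agent.Helper40.EL Pool.Agent.Helper42.NS Pool.Agent.Helper52.KP Pool.Agent.Helper52.SL
open Pool.Agent.Helper89.LX Pool.Agent.Helper3.LF Pool.Agent.Helper3.SG Pool.Agent.Helper48.NS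
open Pool.Agent.Helper91.GR Pool.Agent.Helper46.LI Pool.Agent.Helper19.S12 Pool.Agent.Helper40.NSK

noncomputable section

variable {S : Sp} {m : ℕ}

/-! ### coordinate projections -/

section prj
variable {q : ℕ}

/-- the permutation induced on the other coordinates -/
def ind (e : Equiv.Perm (Fin (q + 1))) (z : Fin (q + 1)) : Equiv.Perm (Fin q) :=
  (finSuccAboveEquiv z).trans
    ((e.subtypeEquiv (p := fun a => a ≠ z) (q := fun a => a ≠ e z) (fun a => by simp)).trans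
      (finSuccAboveEquiv (e z)).symm)

theorem ind_spec (e : Equiv.Perm (Fin (q + 1))) (z : Fin (q + 1)) (j : Fin q) :
    (e z).succAbove (ind e z j) = e (z.succAbove j) := by
  have h1 : finSuccAboveEquiv (e z) (ind e z j) =
      (e.subtypeEquiv (p := fun a => a ≠ z) (q := fun a => a ≠ e z) (fun a => by simp))
        (finSuccAboveEquiv z j) := by
    unfold ind
    rw [Equiv.trans_apply, Equiv.trans_apply, Equiv.apply_symm_apply]
  exact congrArg Subtype.val h1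

theorem vv_ext {y y' : S.VV m} (h : ∀ k ω i, y.v k ω i = y'.v k ω i) : y = y' := by
  cases y
  cases y'
  congr
  funext k ω i
  exact h k ω i

theorem sys_ext {s s' : Sys S m} (ha : s.a = s'.a) (hx : s.x = s'.x) (ht : s.t = s'.t) : s = s' := by
  cases s
  cases s'
  congr

/-- PROJECTIONS OF THE PERMUTED SYSTEM -/
theorem prZ_pm (s : Sys S (q + 1)) (e : Equiv.Perm (Fin (q + 1))) (z : Fin (q + 1)) :
    prZ (s.pm e) z = (prZ s (e z)).pm (ind e z) := by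
  apply sys_ext
  · apply vv_ext
    intro k ω i
    rw [prZ_a, pm_a, pm_a, prZ_a, ind_spec]
  · apply vv_ext
    intro k ω i
    rw [prZ_x, pm_x, pm_x, prZ_x, ind_spec]
  · rfl

variable {D : ℕ}

theorem HfP_prZ (s : Sys S (q + 1)) (e : Equiv.Perm (Fin (q + 1))) (z : Fin (q + 1)) {c σ : ℝ} :
    HfP (s.pm e) (prZ (s.pm e) z) D c σ ↔ HfP s (prZ s (e z)) D c σ := by
  rw [prZ_pm, HfP_pm', HfP_pm]

theorem lamP_prZ (s : Sys S (q + 1)) (e : Equiv.Perm (Fin (q + 1))) (z : Fin (q + 1)) (c : ℝ) :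
    lamP (s.pm e) (prZ (s.pm e) z) D c = lamP s (prZ s (e z)) D c := by
  rw [prZ_pm, lamP_pm', lamP_pm]

theorem lvolP_prZ (s : Sys S (q + 1)) (e : Equiv.Perm (Fin (q + 1))) (z : Fin (q + 1)) (c : ℝ) :
    Helper3.SG.lvolP (s.pm e) (prZ (s.pm e) z) D c = Helper3.SG.lvolP s (prZ s (e z)) D c := by
  rw [prZ_pm, lvolP_pm', lvolP_pm]

theorem lvolP2_prZ (s : Sys S (q + 1)) (e : Equiv.Perm (Fin (q + 1))) (z : Fin (q + 1)) (c : ℝ) :
    Helper52.SL.lvolP (s.pm e) (prZ (s.pm e) z) D c = Helper52.SL.lvolP s (prZ s (e z)) D c := by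
  rw [prZ_pm, lvolP2_pm', lvolP2_pm]

theorem psi_GDP (s : Sys S (q + 1)) (e : Equiv.Perm (Fin (q + 1))) (z : Fin (q + 1)) (c σ : ℝ) :
    psi (GDP (sel z) D) (s.pm e) c σ = psi (GDP (sel (e z)) D) s c σ := by
  have h0 : ∀ (a x : Fin (q + 1) → ℝ) (t : ℝ),
      pl (fun i => ∑ j, sel z i j * a (e j)) (fun i => ∑ j, sel z i j * x (e j)) t =
      fun l => pl (fun i => ∑ j, sel (e z) i j * a j) (fun i => ∑ j, sel (e z) i j * x j) t (ex (ind e z) l) := by
    intro a x t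
    rw [← pl_ex]
    have h1 : ∀ (b : Fin (q + 1) → ℝ) (i : Fin q), ∑ j, sel z i j * b (e j) = ∑ j, sel (e z) (ind e z i) j * b j := by
      intro b i
      have h2 := sel_sum z (fun j => b (e j)) i
      rw [h2, sel_sum (e z) b (ind e z i), ind_spec]
    simp only [h1]
  rw [← psi_pm]
  refine psi_congr (G := (GDP (sel z) D).pm e) (G' := GDP (sel (e z)) D) (rx (ex (ind e z)))
    (fun n A _ => rx_Cpd (ex (ind e z))) (fun n A a x t => ?_) (fun n A a x t => ?_) s c σ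
  · show phi _ (rx (ex (ind e z)) A) (pl (fun i => ∑ j, sel (e z) i j * a j) (fun i => ∑ j, sel (e z) i j * x j) t) =
      phi _ A (pl (fun i => ∑ j, sel z i j * a (e j)) (fun i => ∑ j, sel z i j * x (e j)) t)
    rw [h0]
    exact (phi_rx (ex (ind e z)) _ A _).symm
  · show gam _ (rx (ex (ind e z)) A) (pl (fun i => ∑ j, sel (e z) i j * a j) (fun i => ∑ j, sel (e z) i j * x j) t) =
      gam _ A (pl (fun i => ∑ j, sel z i j * a (e j)) (fun i => ∑ j, sel z i j * x (e j)) t)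
    rw [h0]
    exact (gam_rx (ex (ind e z)) _ A _).symm

end prj

/-! ### thickness in a direction -/

theorem HfE_pm {D : ℕ} {s : Sys S m} {e : Equiv.Perm (Fin m)} {i : Fin m} {c σ : ℝ} :
    HfE (s.pm e) D (Pi.single i 1) c σ ↔ HfE s D (Pi.single (e i) 1) c σ := by
  rw [HfE_iff_HH, HfE_iff_HH, HH_iff, HH_iff, psi_GDe]

/-! ### sheets -/

/-- coefficients of sheets in the permuted coordinates -/
def cfE (e : Equiv.Perm (Fin m)) : (Cf (m + 1) × ℝ) ≃ (Cf (m + 1) × ℝ) where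
  toFun := fun A => ((A.1.1, fun j => A.1.2 ((ex e).symm j)), A.2)
  invFun := fun A => ((A.1.1, fun j => A.1.2 (ex e j)), A.2)
  left_inv := fun A => by
    have h : (fun j => A.1.2 ((ex e).symm (ex e j))) = A.1.2 := funext fun j => by rw [Equiv.symm_apply_apply]
    show ((A.1.1, fun j => A.1.2 ((ex e).symm (ex e j))), A.2) = A
    rw [h]
  right_inv := fun A => by
    have h : (fun j => A.1.2 (ex e ((ex e).symm j))) = A.1.2 := funext fun j => by rw [Equiv.apply_symm_apply]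
    show ((A.1.1, fun j => A.1.2 (ex e ((ex e).symm j))), A.2) = A
    rw [h]

theorem df_pm (e : Equiv.Perm (Fin m)) (i : Fin m) (J : Finset (Fin (m + 1))) (f : Cf (m + 1)) (a x : Fin m → ℝ)
    (t : ℝ) : df (e i) (J.image (ex e)) (f.1, fun j => f.2 ((ex e).symm j)) a x t =
      df i J f (fun i => a (e i)) (fun i => x (e i)) t := by
  unfold df aff
  rw [Finset.sum_image fun _ _ _ _ h => (ex e).injective h, pl_ex]
  simp only [Equiv.symm_apply_apply]

theorem psi_SJ (s : Sys S m) (e : Equiv.Perm (Fin m)) (i : Fin m) (J : Finset (Fin (m + 1))) (c σ : ℝ) :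
    psi (SJ i J) (s.pm e) c σ = psi (SJ (e i) (J.image (ex e))) s c σ := by
  rw [← psi_pm]
  refine psi_congr (G := (SJ i J).pm e) (G' := SJ (e i) (J.image (ex e))) (cfE e) (fun n A _ => Iff.rfl)
    (fun n A a x t => ?_) (fun n A a x t => rfl) s c σ
  show (A.2 * df (e i) (J.image (ex e)) (A.1.1, fun j => A.1.2 ((ex e).symm j)) a x t) ^ 2 +
      ∑ j, (A.1.2 ((ex e).symm j)) ^ 2 =
    (A.2 * df i J A.1 (fun i => a (e i)) (fun i => x (e i)) t) ^ 2 + ∑ j, (A.1.2 j) ^ 2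
  rw [df_pm, Equiv.sum_comp (ex e).symm fun j => (A.1.2 j) ^ 2]

theorem HH_SJ (s : Sys S m) (e : Equiv.Perm (Fin m)) (i : Fin m) (J : Finset (Fin (m + 1))) (c σ : ℝ) :
    HH (SJ i J) (s.pm e) c σ ↔ HH (SJ (e i) (J.image (ex e))) s c σ := by
  rw [HH_iff, HH_iff, psi_SJ]

theorem la_pm (s : Sys S m) (e : Equiv.Perm (Fin m)) (i : Fin m) (J : Finset (Fin (m + 1))) (c : ℝ) :
    la (s.pm e) i J c = la s (e i) (J.image (ex e)) c := by
  unfold la
  simp only [HH_SJ]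

/-! ### the selected systems -/

section three
variable {G : ℕ → Gg 3} {Φ : ℕ → Fnl 3} {D : ℕ} {g : ℝ} {s : Sys S 3}

theorem lamI_pm (s : Sys S 3) (e : Equiv.Perm (Fin 3)) (i : Fin 3) (c : ℝ) : lamI (s.pm e) i c = lamI s (e i) c :=
  lamP_prZ s e i c

theorem HfP_prI (s : Sys S 3) (e : Equiv.Perm (Fin 3)) (i : Fin 3) {c σ : ℝ} :
    HfP (s.pm e) (prI (s.pm e) i) D c σ ↔ HfP s (prI s (e i)) D c σ := HfP_prZ s e i

theorem lvolP_prI (s : Sys S 3) (e : Equiv.Perm (Fin 3)) (i : Fin 3) (c : ℝ) :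
    Helper3.SG.lvolP (s.pm e) (prI (s.pm e) i) D c = Helper3.SG.lvolP s (prI s (e i)) D c := lvolP_prZ s e i c

theorem lvolP2_prI (s : Sys S 3) (e : Equiv.Perm (Fin 3)) (i : Fin 3) (c : ℝ) :
    Helper52.SL.lvolP (s.pm e) (prI (s.pm e) i) D c = Helper52.SL.lvolP s (prI s (e i)) D c := lvolP2_prZ s e i c

theorem c0_pm (s : Sys S 3) (e : Equiv.Perm (Fin 3)) : c0 (s.pm e) D = c0 s D := by
  unfold c0
  simp only [Hf_pm]

theorem ZDir_pm (s : Sys S 3) (e : Equiv.Perm (Fin 3)) (i : Fin 3) : ZDir (s.pm e) D i ↔ ZDir s D (e i) := by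
  unfold ZDir
  rw [c0_pm, HfE_pm]

theorem FlatI_pm (s : Sys S 3) (e : Equiv.Perm (Fin 3)) (i : Fin 3) : FlatI (s.pm e) D i ↔ FlatI s D (e i) := by
  unfold FlatI
  rw [c0_pm]
  simp only [lamI_pm]

/-- THE PERMUTED SELECTED SYSTEM is selected for the transported lists -/
theorem Sel4_pm (hs : Sel4 G Φ D g s) (e : Equiv.Perm (Fin 3)) {G' : ℕ → Gg 3} {Φ' : ℕ → Fnl 3}
    (hG : ∀ k, ∃ j, G j = (G' k).pm e) (hΦ : ∀ k, ∃ j, Φ j = (Φ' k).pm e) : Sel4 G' Φ' D g (s.pm e) where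
  g0 := hs.g0
  rich := (pm_Rich s e).mpr hs.rich
  con := by
    rw [pm_ic]
    exact hs.con
  rob :=
    { p := (pm_RobP s e).mpr hs.rob.p
      i := (pm_RobustI s e).mpr hs.rob.i
      g := by
        rw [← RobustG_pm]
        intro k
        obtain ⟨j, hj⟩ := hG k
        have h1 := hs.rob.g j
        rw [hj] at h1
        exact h1
      f := by
        intro k
        obtain ⟨j, hj⟩ := hΦ k
        have h1 := hs.rob.f j
        rw [hj] at h1
        exact h1 }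
  robD := by
    intro i T p E hE c σ
    have h1 := hs.robD i T p E hE c σ
    rw [pm_im, psi_GD, psi_GD]
    exact h1
  robE := by
    intro i T p E hE c σ
    have h1 := hs.robE (e i) T p E hE c σ
    rw [pm_im, psi_GDe, psi_GDe]
    exact h1
  robE1 := by
    intro i T p E hE c σ
    have h1 := hs.robE1 (e i) T p E hE c σ
    rw [pm_im, psi_GDe, psi_GDe]
    exact h1
  robL := by
    intro i T p E hE c σ
    have h1 := hs.robL (e i) T p E hE c σ
    rw [pm_im]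
    exact (psi_GDP _ e i c σ).trans (h1.trans (psi_GDP s e i c σ).symm)
  dens := by
    rw [pm_defic]
    exact hs.dens
  nos := by
    rw [Hf_pm]
    exact hs.nos

end three

/-- LISTS which contain all permutations of given lists -/
theorem exists_lists (G' : ℕ → Gg m) (Φ' : ℕ → Fnl m) {M : ℝ} (hM : ∀ q S s, (Φ' q).f S s ≤ M) :
    ∃ (G : ℕ → Gg m) (Φ : ℕ → Fnl m), (∀ q S s, (Φ q).f S s ≤ M) ∧
      (∀ (e : Equiv.Perm (Fin m)) (k : ℕ), ∃ j, G j = (G' k).pm e) ∧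
      ∀ (e : Equiv.Perm (Fin m)) (k : ℕ), ∃ j, Φ j = (Φ' k).pm e := by
  obtain ⟨f, hf⟩ := exists_surjective_nat (Equiv.Perm (Fin m))
  refine ⟨fun n => (G' n.unpair.1).pm (f n.unpair.2), fun n => (Φ' n.unpair.1).pm (f n.unpair.2), fun q S s => ?_,
    fun e k => ?_, fun e k => ?_⟩
  · exact hM _ S _
  · obtain ⟨n, hn⟩ := hf e
    refine ⟨Nat.pair k n, ?_⟩
    show (G' (Nat.pair k n).unpair.1).pm (f (Nat.pair k n).unpair.2) = _
    rw [Nat.unpair_pair, hn]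
  · obtain ⟨n, hn⟩ := hf e
    refine ⟨Nat.pair k n, ?_⟩
    show (Φ' (Nat.pair k n).unpair.1).pm (f (Nat.pair k n).unpair.2) = _
    rw [Nat.unpair_pair, hn]

/-- **WLOG LISTS**: for given lists there are lists such that ALL permutations of the systems which are selected for
the new lists are selected for the given lists -/
theorem exists_lists4 (G' : ℕ → Gg 3) (Φ' : ℕ → Fnl 3) {M : ℝ} (hM : ∀ q S s, (Φ' q).f S s ≤ M) :
    ∃ (G : ℕ → Gg 3) (Φ : ℕ → Fnl 3), (∀ q S s, (Φ q).f S s ≤ M) ∧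
      ∀ {D : ℕ} {g : ℝ} {S : Sp} {s : Sys S 3}, Sel4 G Φ D g s → ∀ e : Equiv.Perm (Fin 3), Sel4 G' Φ' D g (s.pm e) := by
  obtain ⟨G, Φ, h1, h2, h3⟩ := exists_lists G' Φ' hM
  exact ⟨G, Φ, h1, fun hs e => Sel4_pm hs e (h2 e) (h3 e)⟩

/-- CASE A with `z = P 2` -/
def ST_CA2 : Prop := ∃ D0 : ℕ, ∀ D : ℕ, D0 ≤ D → ∃ (G : ℕ → Gg 3) (Φ : ℕ → Fnl 3) (M : ℝ),
  (∀ q S s, (Φ q).f S s ≤ M) ∧ ∀ (g : ℝ) (S : Sp) (s : Sys S 3), Sel4 G Φ D g s → ZDir s D 2 →
    lamI s 2 (c0 s D) < 1 → FlatI s D 2 → False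

/-- CASE B with `z = P 2` -/
def ST_CB2 : Prop := ∃ D0 : ℕ, ∀ D : ℕ, D0 ≤ D → ∃ (G : ℕ → Gg 3) (Φ : ℕ → Fnl 3) (M : ℝ),
  (∀ q S s, (Φ q).f S s ≤ M) ∧ ∀ (g : ℝ) (S : Sp) (s : Sys S 3), Sel4 G Φ D g s → ZDir s D 2 →
    (∀ i : Fin 3, ZDir s D i → lamI s i (c0 s D) = 1 ∨ ¬ FlatI s D i) → False

theorem st_ca_of (h : ST_CA2) : ST_CA := by
  obtain ⟨D0, h⟩ := h
  refine ⟨D0, fun D hD => ?_⟩
  obtain ⟨G', Φ', M, hM, h⟩ := h D hD
  obtain ⟨G, Φ, h1, h2⟩ := exists_lists4 G' Φ' hM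
  refine ⟨G, Φ, M, h1, fun g S s hs i hz hl hf => ?_⟩
  have e2 : Equiv.swap i 2 2 = i := Equiv.swap_apply_right i 2
  apply h g S (s.pm (Equiv.swap i 2)) (h2 hs _)
  · rw [ZDir_pm, e2]
    exact hz
  · rw [lamI_pm, c0_pm, e2]
    exact hl
  · rw [FlatI_pm, e2]
    exact hf

theorem st_cb_of (h : ST_CB2) : ST_CB := by
  obtain ⟨D0, h⟩ := h
  refine ⟨D0, fun D hD => ?_⟩
  obtain ⟨G', Φ', M, hM, h⟩ := h D hD
  obtain ⟨G, Φ, h1, h2⟩ := exists_lists4 G' Φ' hM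
  refine ⟨G, Φ, M, h1, fun g S s hs hz hc => ?_⟩
  obtain ⟨i, hz⟩ := hz
  have e2 : Equiv.swap i 2 2 = i := Equiv.swap_apply_right i 2
  apply h g S (s.pm (Equiv.swap i 2)) (h2 hs _)
  · rw [ZDir_pm, e2]
    exact hz
  · intro j hj
    rw [ZDir_pm] at hj
    rw [lamI_pm, c0_pm, FlatI_pm]
    exact hc _ hj

/-- for three different names there is a permutation -/
theorem exists_perm3 {y R z : Fin 3} (h1 : y ≠ R) (h2 : y ≠ z) (h3 : R ≠ z) :
    ∃ e : Equiv.Perm (Fin 3), e 0 = y ∧ e 1 = R ∧ e 2 = z := by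
  revert y R z
  decide

end

end Pool.Agent.Helper46.PM
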