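import Pool.Agent.Helper46.PM.Exf
import Pool.Agent.Helper31.NSB.Lev

/-! The robustness bundle of case B is symmetric in the coordinates. -/

set_option autoImplicit false

namespace Pool.Agent.Helper31.NSB

open Finset Filter Topology Matrix Pool.Agent.Helper69.RK Pool.Agent.Helper31.EC Pool.Agent.Helper31.EC.Sp
open Pool.Agent.Helper40.EL Pool.Agent.Helper42.NS Pool.Agent.Helper52.KP Pool.Agent.Helper52.SL
open Pool.Agent.Helper89.LX Pool.Agent.Helper3.SG Pool.Agent.Helper46.PM
open Pool.Agent.Helper91.GR Pool.Agent.Helper19.S12 Pool.Agent.Helper40.NSK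

noncomputable section

/-- **SYMMETRY**: the permuted system is robust -/
theorem Rbb.pm {g : ℝ} {S : Sp} {s : Sys S 3} (h : Rbb g s) (e : Equiv.Perm (Fin 3)) : Rbb g (s.pm e) where
  g0 := h.g0
  rich := (pm_Rich s e).mpr h.rich
  P := (pm_RobP s e).mpr h.P
  I := (pm_RobustI s e).mpr h.I
  sj := by
    intro i J _ T p E hE c σ
    have h1 := h.sj (e i) (J.image (ex e)) () T p E hE c σ
    rw [pm_im, psi_SJ, psi_SJ]
    exact h1
  gd := by
    intro D _ T p E hE c σ
    have h1 := h.gd D () T p E hE c σ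
    rw [pm_im, psi_GD, psi_GD]
    exact h1
  gde := by
    intro D i _ T p E hE c σ
    have h1 := h.gde D (e i) () T p E hE c σ
    rw [pm_im, psi_GDe, psi_GDe]
    exact h1
  gdp := by
    intro i T p E hE c σ
    have h1 := h.gdp (e i) T p E hE c σ
    rw [pm_im]
    exact (psi_GDP _ e i c σ).trans (h1.trans (psi_GDP s e i c σ).symm)
  vol := by
    intro i c h0 h1 T p E hE
    have h2 := h.vol (e i) c h0 h1 T p E hE
    have h3 : Helper52.SL.lvolP ((s.im p E hE).pm e) (prI ((s.im p E hE).pm e) i) 1 c =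
        Helper52.SL.lvolP (s.im p E hE) (prI (s.im p E hE) (e i)) 1 c := lvolP2_prI (s.im p E hE) e i c
    have h4 : Helper52.SL.lvolP (s.pm e) (prI (s.pm e) i) 1 c = Helper52.SL.lvolP s (prI s (e i)) 1 c :=
      lvolP2_prI s e i c
    rw [h4]
    exact h3.le.trans h2
  rx := by
    intro i T p E hE r h0 h1
    have h2 := h.rx (e i) T p E hE r h0 h1
    rw [pm_cor_h, pm_cor_x, pm_lB]
    exact h2

end

end Pool.Agent.Helper31.NSB
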